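import Mathlib

/-!
Random subsets: the numbers behind the choice of a random set of primes (helper715).
-/

set_option autoImplicit false

namespace Pool.Agent.TH715.RU

open Finset

/-- the subsets of size `m` that contain a given set -/
theorem card_containing {α : Type*} [DecidableEq α] (Q T : Finset α) (m : ℕ) (hT : T ⊆ Q)
    (_hTm : T.card ≤ m) :
    ((Q.powersetCard m).filter fun P => T ⊆ P).card ≤ (Q.card - T.card).choose (m - T.card) := by
  have h1 : ((Q.powersetCard m).filter fun P => T ⊆ P).card ≤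
      ((Q \ T).powersetCard (m - T.card)).card := by
    refine Finset.card_le_card_of_injOn (fun P => P \ T) ?_ ?_
    · intro P hP
      rw [mem_coe, mem_filter, mem_powersetCard] at hP
      rw [mem_coe, mem_powersetCard]
      refine ⟨sdiff_subset_sdiff hP.1.1 (Subset.refl _), ?_⟩
      rw [card_sdiff_of_subset hP.2, hP.1.2]
    · intro P hP P' hP' h
      rw [mem_coe, mem_filter, mem_powersetCard] at hP hP'
      have h2 : P \ T = P' \ T := h
      rw [← sdiff_union_of_subset hP.2, h2, sdiff_union_of_subset hP'.2]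
  refine h1.trans ?_
  rw [card_powersetCard, card_sdiff_of_subset hT]

theorem desc_ratio (N m w : ℕ) (hmN : m ≤ N) :
    m.descFactorial w * N ^ w ≤ N.descFactorial w * m ^ w := by
  rw [Nat.descFactorial_eq_prod_range, Nat.descFactorial_eq_prod_range]
  have h3 : N ^ w = ∏ _i ∈ range w, N := by simp
  have h4 : m ^ w = ∏ _i ∈ range w, m := by simp
  rw [h3, h4, ← Finset.prod_mul_distrib, ← Finset.prod_mul_distrib]
  refine Finset.prod_le_prod' fun i _ => ?_
  rcases le_total m i with h | h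
  · rw [Nat.sub_eq_zero_of_le h, zero_mul]
    exact Nat.zero_le _
  · obtain ⟨a, rfl⟩ := Nat.exists_eq_add_of_le h
    obtain ⟨b, rfl⟩ := Nat.exists_eq_add_of_le hmN
    have e1 : i + a - i = a := by omega
    have e2 : i + a + b - i = a + b := by omega
    rw [e1, e2]
    nlinarith

/-- the proportion of the subsets of size `m` that contain a given set of size `w` -/
theorem choose_ratio (N m w : ℕ) (hmN : m ≤ N) (hw : w ≤ m) :
    (((N - w).choose (m - w) : ℕ) : ℝ) ≤ ((m : ℝ) / N) ^ w * (N.choose m : ℝ) := by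
  rcases Nat.eq_zero_or_pos N with h0 | h0
  · subst h0
    have hm : m = 0 := by omega
    subst hm
    have hw0 : w = 0 := by omega
    subst hw0
    simp
  have hN : (0 : ℝ) < N := by exact_mod_cast h0
  rw [div_pow, div_mul_eq_mul_div, le_div_iff₀ (by positivity)]
  have h1 : N.choose m * m.choose w = N.choose w * (N - w).choose (m - w) :=
    Nat.choose_mul hw
  have h2 := desc_ratio N m w hmN
  rw [Nat.descFactorial_eq_factorial_mul_choose, Nat.descFactorial_eq_factorial_mul_choose] at h2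
  have h3 : m.choose w * N ^ w ≤ N.choose w * m ^ w := by
    have h4 : w.factorial * (m.choose w * N ^ w) ≤ w.factorial * (N.choose w * m ^ w) := by
      calc w.factorial * (m.choose w * N ^ w) = w.factorial * m.choose w * N ^ w := by ring
        _ ≤ w.factorial * N.choose w * m ^ w := h2
        _ = _ := by ring
    exact Nat.le_of_mul_le_mul_left h4 (Nat.factorial_pos w)
  have h5 : 0 < N.choose w := Nat.choose_pos (hw.trans hmN)
  have h6 : (N - w).choose (m - w) * N ^ w ≤ m ^ w * N.choose m := by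
    have h7 : N.choose w * ((N - w).choose (m - w) * N ^ w) ≤ N.choose w * (m ^ w * N.choose m) := by
      calc N.choose w * ((N - w).choose (m - w) * N ^ w) =
          (N.choose w * (N - w).choose (m - w)) * N ^ w := by ring
        _ = (N.choose m * m.choose w) * N ^ w := by rw [h1]
        _ = N.choose m * (m.choose w * N ^ w) := by ring
        _ ≤ N.choose m * (N.choose w * m ^ w) := Nat.mul_le_mul_left _ h3
        _ = _ := by ring
    exact Nat.le_of_mul_le_mul_left h7 h5
  exact_mod_cast h6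

theorem choose_le_exp (N u : ℕ) (hu : 0 < u) :
    (N.choose u : ℝ) ≤ (Real.exp 1 * N / u) ^ u := by
  have hu' : (0 : ℝ) < u := by exact_mod_cast hu
  have h1 : (N.choose u : ℝ) ≤ (N : ℝ) ^ u / u.factorial := Nat.choose_le_pow_div u N
  have h2 : (u : ℝ) ^ u / u.factorial ≤ Real.exp u :=
    Real.pow_div_factorial_le_exp _ hu'.le u
  refine h1.trans ?_
  rw [div_pow, mul_pow, Real.exp_one_pow]
  rw [div_le_iff₀ (by positivity)] at h2
  rw [div_le_div_iff₀ (by positivity) (by positivity)]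
  calc (N : ℝ) ^ u * (u : ℝ) ^ u ≤ (N : ℝ) ^ u * (Real.exp u * u.factorial) :=
        mul_le_mul_of_nonneg_left h2 (by positivity)
    _ = _ := by ring

/-- the number of small subsets -/
theorem card_small {α : Type*} [DecidableEq α] (P : Finset α) (W : ℝ) (hW : 0 < W) :
    ((P.powerset.filter fun T => (T.card : ℝ) ≤ W).card : ℝ) ≤
      (Real.exp 1 * (1 + P.card / W)) ^ W := by
  set m : ℝ := (P.card : ℝ) with hm
  have hm0 : 0 ≤ m := Nat.cast_nonneg _
  set y : ℝ := W / (m + W) with hy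
  have hy0 : 0 < y := by positivity
  have hy1 : y ≤ 1 := by rw [hy, div_le_one (by positivity)]; linarith
  have h1 : ((P.powerset.filter fun T => (T.card : ℝ) ≤ W).card : ℝ) ≤
      ∑ T ∈ P.powerset, y ^ T.card * y ^ (-W) := by
    rw [Finset.card_eq_sum_ones]
    push_cast
    refine (Finset.sum_le_sum (g := fun T => y ^ T.card * y ^ (-W)) fun T hT => ?_).trans
      (Finset.sum_le_sum_of_subset_of_nonneg (Finset.filter_subset _ _) fun T _ _ => by positivity)
    have hT' := (Finset.mem_filter.1 hT).2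
    rw [← Real.rpow_natCast, ← Real.rpow_add hy0]
    exact Real.one_le_rpow_of_pos_of_le_one_of_nonpos hy0 hy1 (by linarith)
  refine h1.trans ?_
  rw [← Finset.sum_mul]
  have h2 : ∑ T ∈ P.powerset, y ^ T.card = (1 + y) ^ P.card := by
    have := Finset.sum_pow_mul_eq_add_pow y (1 : ℝ) P
    simp only [one_pow, mul_one] at this
    rw [this, add_comm]
  rw [h2]
  have h3 : (1 + y) ^ P.card ≤ Real.exp W := by
    calc (1 + y) ^ P.card ≤ (Real.exp y) ^ P.card := by
          refine pow_le_pow_left₀ (by positivity) ?_ _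
          have := Real.add_one_le_exp y
          linarith
      _ = Real.exp (P.card * y) := by rw [Real.exp_nat_mul]
      _ ≤ Real.exp W := by
          refine Real.exp_le_exp.2 ?_
          rw [← hm, hy, ← mul_div_assoc, div_le_iff₀ (by positivity)]
          nlinarith
  have h4 : y ^ (-W) = (1 + m / W) ^ W := by
    rw [Real.rpow_neg hy0.le, ← Real.inv_rpow hy0.le]
    congr 1
    rw [hy]
    field_simp
    ring
  rw [h4, Real.mul_rpow (Real.exp_pos 1).le (by positivity)]
  refine mul_le_mul_of_nonneg_right ?_ (by positivity)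
  rwa [← Real.exp_mul, one_mul]

/-- the main estimate: for `w > W` the expected number of points with `w` new primes is tiny -/
theorem term_bound (C₀ α β : ℝ) (hC₀ : 1 ≤ C₀) (hβ0 : 0 < β) (hα : α ≤ 1 / 2)
    (hαβ : β < (1 + β) * α) : ∃ C : ℝ, 1 ≤ C ∧ ∀ (N m w p : ℕ) (W : ℝ), m ≤ N → w ≤ m →
      W < w → C ≤ W → (p : ℝ) ≤ W → C * m * ((m : ℝ) / N) ^ β ≤ W →
      C₀ ^ (p + w + 1) * (N.choose (w - ⌊α * w⌋₊) : ℝ) * ((m : ℝ) / N) ^ w ≤
        Real.exp (-2) ^ w := by
  have hα0 : 0 < α := by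
    by_contra h
    push Not at h
    have : (1 + β) * α ≤ 0 := mul_nonpos_of_nonneg_of_nonpos (by linarith) h
    linarith
  obtain ⟨D, hD⟩ : ∃ D : ℝ, D = Real.exp 2 * C₀ ^ 2 := ⟨_, rfl⟩
  have he2 : 1 ≤ Real.exp 2 := Real.one_le_exp (by norm_num)
  have hD1 : 1 ≤ D := by
    rw [hD]; exact one_le_mul_of_one_le_of_one_le he2 (one_le_pow₀ hC₀)
  have hD0 : 0 < D := by linarith
  have he1 : 1 ≤ Real.exp 1 := Real.one_le_exp (by norm_num)
  obtain ⟨C, hC⟩ : ∃ C : ℝ, C = max (2 * Real.exp 1 * D ^ 2) ((1 + β) / ((1 + β) * α - β)) :=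
    ⟨_, rfl⟩
  have hCl : 2 * Real.exp 1 * D ^ 2 ≤ C := by rw [hC]; exact le_max_left _ _
  have hCr : (1 + β) / ((1 + β) * α - β) ≤ C := by rw [hC]; exact le_max_right _ _
  have hC1 : 1 ≤ C := by
    refine le_trans ?_ hCl
    have : 1 ≤ D ^ 2 := one_le_pow₀ hD1
    nlinarith
  refine ⟨C, hC1, ?_⟩
  intro N m w p W hmN hwm hWw hCW hpW hcond
  have hW0 : 0 < W := by linarith
  have hw0 : (0 : ℝ) < w := lt_trans hW0 hWw
  have hw0' : 0 < w := by exact_mod_cast hw0
  have hm0' : 0 < m := by omega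
  have hm0 : (0 : ℝ) < m := by exact_mod_cast hm0'
  have hN0 : (0 : ℝ) < N := by exact_mod_cast (by omega : 0 < N)
  have hwm' : (w : ℝ) ≤ m := by exact_mod_cast hwm
  have hmN' : (m : ℝ) ≤ N := by exact_mod_cast hmN
  obtain ⟨j, hj⟩ : ∃ j : ℕ, j = ⌊α * w⌋₊ := ⟨_, rfl⟩
  rw [← hj]
  have hjle : (j : ℝ) ≤ α * w := by rw [hj]; exact Nat.floor_le (by positivity)
  have hjge : α * w - 1 < j := by rw [hj]; exact Nat.sub_one_lt_floor _
  have hjw : (j : ℝ) ≤ w / 2 := by nlinarith
  have hjw' : 2 * j ≤ w := by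
    have : (2 * j : ℝ) ≤ w := by linarith
    exact_mod_cast this
  obtain ⟨u, hu⟩ : ∃ u : ℕ, u = w - j := ⟨_, rfl⟩
  rw [← hu]
  have hu0 : 0 < u := by omega
  have hu0' : (0 : ℝ) < u := by exact_mod_cast hu0
  have huw : u + j = w := by omega
  have huw' : (u : ℝ) + j = w := by exact_mod_cast huw
  have hu2 : (w : ℝ) ≤ 2 * u := by linarith
  -- the first factor
  have hp : p < w := by
    have : (p : ℝ) < w := lt_of_le_of_lt hpW hWw
    exact_mod_cast this
  have f1 : C₀ ^ (p + w + 1) ≤ (C₀ ^ 2) ^ w := by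
    rw [← pow_mul]
    exact pow_le_pow_right₀ hC₀ (by omega)
  have f2 := choose_le_exp N u hu0
  -- the ratio
  obtain ⟨r, hr⟩ : ∃ r : ℝ, r = (N : ℝ) / m := ⟨_, rfl⟩
  have hr1 : 1 ≤ r := by rw [hr, one_le_div hm0]; exact hmN'
  have hr0 : 0 < r := by linarith
  have hrinv : (m : ℝ) / N = r⁻¹ := by rw [hr, inv_div]
  rw [hrinv] at hcond ⊢
  have hC0 : 0 < C := by linarith
  have f3 : (m : ℝ) / w ≤ r ^ β / C := by
    rw [Real.inv_rpow hr0.le, ← div_eq_mul_inv] at hcond
    have hrβ : 0 < r ^ β := Real.rpow_pos_of_pos hr0 _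
    rw [div_le_iff₀ hrβ] at hcond
    rw [div_le_div_iff₀ hw0 hC0]
    nlinarith
  have f4 : Real.exp 1 * N / u * r⁻¹ ≤ (D ^ 2)⁻¹ * r ^ β := by
    have e1 : Real.exp 1 * N / u * r⁻¹ = Real.exp 1 * (m / u) := by
      rw [hr]; field_simp
    rw [e1]
    have e2 : (m : ℝ) / u ≤ 2 * (m / w) := by
      rw [mul_div_assoc', div_le_div_iff₀ hu0' hw0]
      nlinarith
    have e3 : 2 * Real.exp 1 * D ^ 2 ≤ C := hCl
    have hrβ : 0 < r ^ β := Real.rpow_pos_of_pos hr0 _
    calc Real.exp 1 * (m / u) ≤ Real.exp 1 * (2 * (r ^ β / C)) := by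
          refine mul_le_mul_of_nonneg_left (e2.trans ?_) (Real.exp_pos 1).le
          linarith
      _ = (2 * Real.exp 1) / C * r ^ β := by ring
      _ ≤ (D ^ 2)⁻¹ * r ^ β := by
          refine mul_le_mul_of_nonneg_right ?_ hrβ.le
          rw [div_le_iff₀ hC0, inv_mul_eq_div, le_div_iff₀ (by positivity)]
          exact e3
  have f5 : (Real.exp 1 * N / u) ^ u * (r⁻¹) ^ w ≤ (D⁻¹) ^ w := by
    have e1 : (Real.exp 1 * N / u) ^ u * (r⁻¹) ^ w = (Real.exp 1 * N / u * r⁻¹) ^ u * (r⁻¹) ^ j := by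
      rw [mul_pow, mul_assoc, ← pow_add, huw]
    rw [e1]
    have e2 : (Real.exp 1 * N / u * r⁻¹) ^ u ≤ ((D ^ 2)⁻¹ * r ^ β) ^ u :=
      pow_le_pow_left₀ (by positivity) f4 u
    have hrj : 0 < (r⁻¹) ^ j := by positivity
    refine (mul_le_mul_of_nonneg_right e2 hrj.le).trans ?_
    rw [mul_pow, mul_assoc]
    have e3 : (r ^ β) ^ u * (r⁻¹) ^ j ≤ 1 := by
      rw [← Real.rpow_natCast (r ^ β), ← Real.rpow_mul hr0.le, inv_pow,
        ← Real.rpow_natCast r j, ← Real.rpow_neg hr0.le, ← Real.rpow_add hr0]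
      refine Real.rpow_le_one_of_one_le_of_nonpos hr1 ?_
      have e4 : (1 + β) / ((1 + β) * α - β) ≤ w := (hCr.trans hCW).trans hWw.le
      rw [div_le_iff₀ (by linarith)] at e4
      have e5 : 0 ≤ (1 + β) * ((j : ℝ) - (α * w - 1)) :=
        mul_nonneg (by linarith) (by linarith)
      have e6 : β * u = β * w - β * j := by rw [← huw']; ring
      linarith
    calc ((D ^ 2)⁻¹) ^ u * ((r ^ β) ^ u * (r⁻¹) ^ j) ≤ ((D ^ 2)⁻¹) ^ u * 1 :=
          mul_le_mul_of_nonneg_left e3 (by positivity)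
      _ = (D⁻¹) ^ (2 * u) := by rw [mul_one, ← inv_pow, ← pow_mul]
      _ ≤ (D⁻¹) ^ w := by
          refine pow_le_pow_of_le_one (by positivity) (inv_le_one_of_one_le₀ hD1) ?_
          have : (w : ℝ) ≤ 2 * u := hu2
          exact_mod_cast this
  calc C₀ ^ (p + w + 1) * (N.choose u : ℝ) * (r⁻¹) ^ w
      ≤ (C₀ ^ 2) ^ w * (Real.exp 1 * N / u) ^ u * (r⁻¹) ^ w := by
        refine mul_le_mul_of_nonneg_right ?_ (by positivity)
        exact mul_le_mul f1 f2 (Nat.cast_nonneg _) (by positivity)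
    _ = (C₀ ^ 2) ^ w * ((Real.exp 1 * N / u) ^ u * (r⁻¹) ^ w) := by ring
    _ ≤ (C₀ ^ 2) ^ w * (D⁻¹) ^ w := mul_le_mul_of_nonneg_left f5 (by positivity)
    _ = Real.exp (-2) ^ w := by
        rw [← mul_pow]
        congr 1
        rw [hD, Real.exp_neg]
        field_simp

/-- the sum of the tails -/
theorem tail_sum (m : ℕ) (W : ℝ) (hW : 0 < W) :
    ∑ w ∈ (range (m + 1)).filter (fun w : ℕ => W < w), Real.exp (-2) ^ w ≤ Real.exp (-W) := by
  have h1 : ∀ w ∈ (range (m + 1)).filter (fun w : ℕ => W < w),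
      Real.exp (-2) ^ w ≤ Real.exp (-W) * ((1 / 2) * (1 / 2) ^ (w - 1)) := by
    intro w hw
    have hw' := (Finset.mem_filter.1 hw).2
    have hw1 : 1 ≤ w := by
      have : (0 : ℝ) < w := hW.trans hw'
      have : 0 < w := by exact_mod_cast this
      omega
    have e1 : Real.exp (-2) = Real.exp (-1) * Real.exp (-1) := by
      rw [← Real.exp_add]; norm_num
    rw [e1, mul_pow, ← pow_succ', Nat.sub_add_cancel hw1]
    have e2 : Real.exp (-1) ^ w ≤ Real.exp (-W) := by
      rw [← Real.exp_nat_mul]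
      refine Real.exp_le_exp.2 ?_
      linarith
    have e3 : Real.exp (-1) ≤ 1 / 2 := by
      rw [Real.exp_neg, inv_le_comm₀ (Real.exp_pos 1) (by norm_num)]
      have := Real.exp_one_gt_d9
      norm_num
      linarith
    exact mul_le_mul e2 (pow_le_pow_left₀ (Real.exp_pos _).le e3 _) (by positivity)
      (Real.exp_pos _).le
  refine (Finset.sum_le_sum h1).trans ?_
  rw [← Finset.mul_sum, ← Finset.mul_sum]
  have h2 : ∑ w ∈ (range (m + 1)).filter (fun w : ℕ => W < w), ((1 : ℝ) / 2) ^ (w - 1) ≤ 2 := by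
    have h3 : ∑ w ∈ (range (m + 1)).filter (fun w : ℕ => W < w), ((1 : ℝ) / 2) ^ (w - 1) ≤
        ∑ w ∈ Finset.Ico 1 (m + 1), ((1 : ℝ) / 2) ^ (w - 1) := by
      refine Finset.sum_le_sum_of_subset_of_nonneg ?_ fun _ _ _ => by positivity
      intro w hw
      rw [Finset.mem_filter, Finset.mem_range] at hw
      rw [Finset.mem_Ico]
      have : (0 : ℝ) < w := hW.trans hw.2
      have : 0 < w := by exact_mod_cast this
      omega
    refine h3.trans ?_
    rw [Finset.sum_Ico_eq_sum_range]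
    have h4 : ∀ i ∈ Finset.range (m + 1 - 1), ((1 : ℝ) / 2) ^ (1 + i - 1) = (1 / 2) ^ i := by
      intro i _
      congr 1
      omega
    rw [Finset.sum_congr rfl h4, geom_sum_eq (by norm_num)]
    have h5 : (0 : ℝ) ≤ (1 / 2) ^ (m + 1 - 1) := by positivity
    rw [div_le_iff_of_neg (by norm_num)]
    linarith
  have h6 := Real.exp_pos (-W)
  nlinarith

end Pool.Agent.TH715.RU
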