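import Mathlib
import Pool.Agent.TH715.RU.Comb

/-!
Random sets of primes: the first moment, abstractly (helper715).
-/

set_option autoImplicit false

namespace Pool.Agent.TH715.RU

open Finset

/-- the smallest terms of a sum -/
theorem exists_smallest {ι : Type*} [DecidableEq ι] (g : ι → ℝ) (hg : ∀ i, 0 ≤ g i) (j : ℕ) (d : ℕ) :
    ∀ I : Finset ι, I.card = j + d →
      ∃ J ⊆ I, J.card = j ∧ (j + d : ℝ) * ∑ i ∈ J, g i ≤ j * ∑ i ∈ I, g i := by
  induction d with
  | zero =>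
    intro I hI
    refine ⟨I, Finset.Subset.refl _, by simpa using hI, ?_⟩
    simp
  | succ d ih =>
    intro I hI
    have hne : I.Nonempty := by
      rw [← Finset.card_pos]
      omega
    obtain ⟨m, hm, hmax⟩ := I.exists_max_image g hne
    have hc : (I.erase m).card = j + d := by
      rw [Finset.card_erase_of_mem hm, hI]
      omega
    obtain ⟨J, hJ, hJc, hJs⟩ := ih (I.erase m) hc
    refine ⟨J, hJ.trans (Finset.erase_subset _ _), hJc, ?_⟩
    have h1 : g m + ∑ i ∈ I.erase m, g i = ∑ i ∈ I, g i := Finset.add_sum_erase I g hm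
    have h2 : ∑ i ∈ I.erase m, g i ≤ (j + d : ℝ) * g m := by
      have h3 : ∑ i ∈ I.erase m, g i ≤ ∑ _i ∈ I.erase m, g m :=
        Finset.sum_le_sum fun i hi => hmax i (Finset.mem_of_mem_erase hi)
      rw [Finset.sum_const, hc, nsmul_eq_mul] at h3
      push_cast at h3
      exact h3
    rw [← h1]
    push_cast
    have h4 : 0 ≤ ∑ i ∈ J, g i := Finset.sum_nonneg fun i _ => hg i
    rcases Nat.eq_zero_or_pos (j + d) with h0 | h0
    · have hj : j = 0 := by omega
      subst hj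
      rw [Finset.card_eq_zero] at hJc
      subst hJc
      simp
    · have h0' : (0 : ℝ) < (j : ℝ) + d := by exact_mod_cast h0
      have h5 : ∑ i ∈ J, g i ≤ j * g m := by
        have h6 : ((j : ℝ) + d) * ∑ i ∈ J, g i ≤ ((j : ℝ) + d) * (j * g m) := by
          refine hJs.trans ?_
          have hj0 : (0 : ℝ) ≤ j := Nat.cast_nonneg _
          nlinarith
        exact le_of_mul_le_mul_left h6 h0'
      nlinarith

/-- the number of bad sets -/
theorem bad_abs {X ι : Type*} [DecidableEq ι] (Pt : X → Prop) (sp : X → Finset ι)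
    (P₀ Q : Finset ι) (m : ℕ) (hmQ : m ≤ Q.card) (W : ℝ) (hW : 0 < W)
    (hfin : {x : X | Pt x ∧ sp x ⊆ P₀ ∪ Q}.Finite) (cnt : ℕ → ℝ)
    (hcnt : ∀ (w : ℕ) (E : Finset X),
      (∀ x ∈ E, Pt x ∧ sp x \ P₀ ⊆ Q ∧ (sp x \ P₀).card = w) → (E.card : ℝ) ≤ cnt w)
    (hterm : ∀ w : ℕ, w ≤ m → W < w → cnt w * ((m : ℝ) / Q.card) ^ w ≤ Real.exp (-2) ^ w)
    [DecidablePred fun P : Finset ι => ∃ x : X, Pt x ∧ sp x ⊆ P₀ ∪ P ∧ W < (sp x \ P₀).card] :
    (((Q.powersetCard m).filter fun P => ∃ x : X, Pt x ∧ sp x ⊆ P₀ ∪ P ∧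
      W < (sp x \ P₀).card).card : ℝ) ≤ Real.exp (-W) * (Q.card.choose m : ℝ) := by
  classical
  set E₀ := hfin.toFinset with hE₀
  have hmem : ∀ x, x ∈ E₀ ↔ Pt x ∧ sp x ⊆ P₀ ∪ Q := by
    intro x
    rw [hE₀, Set.Finite.mem_toFinset, Set.mem_ofPred_eq]
  have hcov : ((Q.powersetCard m).filter fun P => ∃ x : X, Pt x ∧ sp x ⊆ P₀ ∪ P ∧
      W < (sp x \ P₀).card) ⊆ ((range (m + 1)).filter fun w : ℕ => W < w).biUnion fun w =>
        (E₀.filter fun x => (sp x \ P₀).card = w).biUnion fun x =>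
          (Q.powersetCard m).filter fun P => sp x \ P₀ ⊆ P := by
    intro P hP
    obtain ⟨hP1, x, hx1, hx2, hx3⟩ := Finset.mem_filter.1 hP
    obtain ⟨hP2, hP3⟩ := Finset.mem_powersetCard.1 hP1
    have hsub : sp x \ P₀ ⊆ P := by
      intro v hv
      obtain ⟨hv1, hv2⟩ := Finset.mem_sdiff.1 hv
      rcases Finset.mem_union.1 (hx2 hv1) with h | h
      · exact absurd h hv2
      · exact h
    rw [Finset.mem_biUnion]
    refine ⟨(sp x \ P₀).card, ?_, ?_⟩
    · rw [Finset.mem_filter, Finset.mem_range]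
      refine ⟨?_, hx3⟩
      have := Finset.card_le_card hsub
      omega
    · rw [Finset.mem_biUnion]
      refine ⟨x, ?_, ?_⟩
      · rw [Finset.mem_filter, hmem]
        exact ⟨⟨hx1, hx2.trans (Finset.union_subset_union (Finset.Subset.refl _) hP2)⟩, rfl⟩
      · rw [Finset.mem_filter]
        exact ⟨hP1, hsub⟩
  have h1 := (Finset.card_le_card hcov).trans (Finset.card_biUnion_le.trans
    (Finset.sum_le_sum fun w _ => Finset.card_biUnion_le))
  have h2 : (((Q.powersetCard m).filter fun P => ∃ x : X, Pt x ∧ sp x ⊆ P₀ ∪ P ∧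
      W < (sp x \ P₀).card).card : ℝ) ≤
      ∑ w ∈ (range (m + 1)).filter (fun w : ℕ => W < w),
        ∑ x ∈ E₀.filter (fun x => (sp x \ P₀).card = w),
          (((Q.powersetCard m).filter fun P => sp x \ P₀ ⊆ P).card : ℝ) := by
    exact_mod_cast h1
  refine h2.trans ?_
  have h3 : ∀ w ∈ (range (m + 1)).filter (fun w : ℕ => W < w),
      ∑ x ∈ E₀.filter (fun x => (sp x \ P₀).card = w),
          (((Q.powersetCard m).filter fun P => sp x \ P₀ ⊆ P).card : ℝ) ≤
        Real.exp (-2) ^ w * (Q.card.choose m : ℝ) := by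
    intro w hw
    obtain ⟨hw1, hw2⟩ := Finset.mem_filter.1 hw
    rw [Finset.mem_range] at hw1
    have hwm : w ≤ m := by omega
    have hsubQ : ∀ x ∈ E₀.filter (fun x => (sp x \ P₀).card = w), sp x \ P₀ ⊆ Q := by
      intro x hx v hv
      obtain ⟨hx1, _⟩ := Finset.mem_filter.1 hx
      obtain ⟨hv1, hv2⟩ := Finset.mem_sdiff.1 hv
      rcases Finset.mem_union.1 (((hmem x).1 hx1).2 hv1) with h | h
      · exact absurd h hv2
      · exact h
    have h4 : ∀ x ∈ E₀.filter (fun x => (sp x \ P₀).card = w),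
        (((Q.powersetCard m).filter fun P => sp x \ P₀ ⊆ P).card : ℝ) ≤
          ((m : ℝ) / Q.card) ^ w * (Q.card.choose m : ℝ) := by
      intro x hx
      have hxw := (Finset.mem_filter.1 hx).2
      have h5 := card_containing Q (sp x \ P₀) m (hsubQ x hx) (by rw [hxw]; exact hwm)
      rw [hxw] at h5
      exact (Nat.cast_le.2 h5).trans (choose_ratio Q.card m w hmQ hwm)
    refine (Finset.sum_le_sum h4).trans ?_
    rw [Finset.sum_const, nsmul_eq_mul]
    have h6 := hcnt w (E₀.filter fun x => (sp x \ P₀).card = w) (by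
      intro x hx
      have hxw := (Finset.mem_filter.1 hx)
      exact ⟨((hmem x).1 hxw.1).1, hsubQ x hx, hxw.2⟩)
    have h7 := hterm w hwm hw2
    calc ((E₀.filter fun x => (sp x \ P₀).card = w).card : ℝ) *
          (((m : ℝ) / Q.card) ^ w * (Q.card.choose m : ℝ))
        ≤ cnt w * (((m : ℝ) / Q.card) ^ w * (Q.card.choose m : ℝ)) :=
          mul_le_mul_of_nonneg_right h6 (by positivity)
      _ = (cnt w * ((m : ℝ) / Q.card) ^ w) * (Q.card.choose m : ℝ) := by ring
      _ ≤ _ := mul_le_mul_of_nonneg_right h7 (Nat.cast_nonneg _)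
  refine (Finset.sum_le_sum h3).trans ?_
  rw [← Finset.sum_mul]
  exact mul_le_mul_of_nonneg_right (tail_sum m W hW) (Nat.cast_nonneg _)

/-- the number of points for a good set -/
theorem good_abs {X ι : Type*} [DecidableEq ι] (Pt : X → Prop) (sp : X → Finset ι)
    (P₀ P : Finset ι) (W A B : ℝ) (hW : 0 < W) (hB : 0 ≤ B) (E : Finset X)
    (hcnt : ∀ (T : Finset ι), T ⊆ P → (T.card : ℝ) ≤ W → ∀ F : Finset X,
      (∀ x ∈ F, Pt x ∧ sp x ⊆ P₀ ∪ T) → (F.card : ℝ) ≤ A)
    (hA : A ≤ B ^ W)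
    (hE : ∀ x ∈ E, Pt x ∧ sp x ⊆ P₀ ∪ P ∧ ((sp x \ P₀).card : ℝ) ≤ W) :
    (E.card : ℝ) ≤ (B * Real.exp 1 * (1 + P.card / W)) ^ W := by
  classical
  set 𝒯 := P.powerset.filter fun T => (T.card : ℝ) ≤ W with h𝒯
  have h1 : (E.card : ℝ) ≤ ∑ T ∈ 𝒯, B ^ W := by
    have h2 : E.card = ∑ T ∈ 𝒯, (E.filter fun x => sp x \ P₀ = T).card := by
      refine Finset.card_eq_sum_card_fiberwise ?_
      intro x hx
      obtain ⟨_, h4, h5⟩ := hE x hx
      rw [Finset.mem_coe, h𝒯, Finset.mem_filter, Finset.mem_powerset]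
      refine ⟨?_, h5⟩
      intro v hv
      obtain ⟨hv1, hv2⟩ := Finset.mem_sdiff.1 hv
      rcases Finset.mem_union.1 (h4 hv1) with h | h
      · exact absurd h hv2
      · exact h
    have h3 : (E.card : ℝ) = ∑ T ∈ 𝒯, ((E.filter fun x => sp x \ P₀ = T).card : ℝ) := by
      exact_mod_cast h2
    rw [h3]
    refine Finset.sum_le_sum fun T hT => ?_
    obtain ⟨hTP, hTW⟩ := Finset.mem_filter.1 hT
    refine (hcnt T (Finset.mem_powerset.1 hTP) hTW (E.filter fun x => sp x \ P₀ = T) ?_).trans hA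
    intro x hx
    obtain ⟨hxE, hxT⟩ := Finset.mem_filter.1 hx
    refine ⟨(hE x hxE).1, ?_⟩
    intro v hv
    rw [Finset.mem_union]
    by_cases hv0 : v ∈ P₀
    · exact Or.inl hv0
    · right
      rw [← hxT, Finset.mem_sdiff]
      exact ⟨hv, hv0⟩
  refine h1.trans ?_
  rw [Finset.sum_const, nsmul_eq_mul]
  have h6 := card_small P W hW
  calc (𝒯.card : ℝ) * B ^ W ≤ (Real.exp 1 * (1 + P.card / W)) ^ W * B ^ W :=
        mul_le_mul_of_nonneg_right h6 (Real.rpow_nonneg hB _)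
    _ = _ := by
        rw [← Real.mul_rpow (by positivity) hB]
        congr 1
        ring

end Pool.Agent.TH715.RU
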