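import Mathlib
import Pool.Agent.TH715.RU.Abs

/-!
Random sets of primes: the first moment with a stronger bound for sparse sets (helper715).
-/

set_option autoImplicit false

namespace Pool.Agent.TH715.RU

open Finset

theorem exp_ineq {α β δ w j u : ℝ} (huw : u + j = w) (h2δ : (1 + β) * α - β - δ = δ)
    (e4 : 1 + β ≤ w * δ) (hj : α * w - 1 ≤ j) (hβ : 0 < β) : β * u + -j ≤ -δ * w := by
  have h1 : u = w - j := by linarith
  have h2 : (1 + β) * (α * w - 1) ≤ (1 + β) * j := mul_le_mul_of_nonneg_left hj (by linarith)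
  have h3 : (1 + β) * (α * w - 1) = ((1 + β) * α) * w - (1 + β) := by ring
  have h4 : (1 + β) * α = β + 2 * δ := by linarith
  rw [h3, h4] at h2
  rw [h1]
  have h5 : (β + 2 * δ) * w = β * w + 2 * (w * δ) := by ring
  have h6 : β * (w - j) + -j = β * w - (1 + β) * j := by ring
  have h7 : -δ * w = -(w * δ) := by ring
  rw [h6, h7]
  linarith

/-- the main estimate: for `w > W` the expected number of points with `w` new primes is tiny -/
theorem term_bound2 (C₀ α β : ℝ) (hC₀ : 1 ≤ C₀) (hβ0 : 0 < β) (hα : α ≤ 1 / 2)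
    (hαβ : β < (1 + β) * α) : ∃ C δ : ℝ, 1 ≤ C ∧ 0 < δ ∧ ∀ (N m w p : ℕ) (W : ℝ), m ≤ N →
      w ≤ m → W < w → C ≤ W → (p : ℝ) ≤ W → C * m * ((m : ℝ) / N) ^ β ≤ W →
      C₀ ^ (p + w + 1) * (N.choose (w - ⌊α * w⌋₊) : ℝ) * ((m : ℝ) / N) ^ w ≤
        (Real.exp (-2) * ((m : ℝ) / N) ^ δ) ^ w := by
  have hα0 : 0 < α := by
    by_contra h
    push Not at h
    have : (1 + β) * α ≤ 0 := mul_nonpos_of_nonneg_of_nonpos (by linarith) h
    linarith
  obtain ⟨D, hD⟩ : ∃ D : ℝ, D = Real.exp 2 * C₀ ^ 2 := ⟨_, rfl⟩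
  have he2 : 1 ≤ Real.exp 2 := Real.one_le_exp (by norm_num)
  have hD1 : 1 ≤ D := by
    rw [hD]; exact one_le_mul_of_one_le_of_one_le he2 (one_le_pow₀ hC₀)
  have hD0 : 0 < D := by linarith
  have he1 : 1 ≤ Real.exp 1 := Real.one_le_exp (by norm_num)
  obtain ⟨δ, hδ⟩ : ∃ δ : ℝ, δ = ((1 + β) * α - β) / 2 := ⟨_, rfl⟩
  have hδ0 : 0 < δ := by rw [hδ]; linarith
  have h2δ : (1 + β) * α - β - δ = δ := by rw [hδ]; ring
  obtain ⟨C, hC⟩ : ∃ C : ℝ, C = max (2 * Real.exp 1 * D ^ 2) ((1 + β) / δ) :=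
    ⟨_, rfl⟩
  have hCl : 2 * Real.exp 1 * D ^ 2 ≤ C := by rw [hC]; exact le_max_left _ _
  have hCr : (1 + β) / δ ≤ C := by rw [hC]; exact le_max_right _ _
  have hC1 : 1 ≤ C := by
    refine le_trans ?_ hCl
    have : 1 ≤ D ^ 2 := one_le_pow₀ hD1
    nlinarith
  refine ⟨C, δ, hC1, hδ0, ?_⟩
  intro N m w p W hmN hwm hWw hCW hpW hcond
  have hW0 : 0 < W := by linarith
  have hw0 : (0 : ℝ) < w := lt_trans hW0 hWw
  have hw0' : 0 < w := by exact_mod_cast hw0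
  have hm0' : 0 < m := by omega
  have hm0 : (0 : ℝ) < m := by exact_mod_cast hm0'
  have hN0 : (0 : ℝ) < N := by exact_mod_cast (by omega : 0 < N)
  have hwm' : (w : ℝ) ≤ m := by exact_mod_cast hwm
  have hmN' : (m : ℝ) ≤ N := by exact_mod_cast hmN
  obtain ⟨j, hj⟩ : ∃ j : ℕ, j = ⌊α * w⌋₊ := ⟨_, rfl⟩
  rw [← hj]
  have hjle : (j : ℝ) ≤ α * w := by rw [hj]; exact Nat.floor_le (by positivity)
  have hjge : α * w - 1 < j := by rw [hj]; exact Nat.sub_one_lt_floor _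
  have hjw : (j : ℝ) ≤ w / 2 := by nlinarith
  have hjw' : 2 * j ≤ w := by
    have : (2 * j : ℝ) ≤ w := by linarith
    exact_mod_cast this
  obtain ⟨u, hu⟩ : ∃ u : ℕ, u = w - j := ⟨_, rfl⟩
  rw [← hu]
  have hu0 : 0 < u := by omega
  have hu0' : (0 : ℝ) < u := by exact_mod_cast hu0
  have huw : u + j = w := by omega
  have huw' : (u : ℝ) + j = w := by exact_mod_cast huw
  have hu2 : (w : ℝ) ≤ 2 * u := by linarith
  -- the first factor
  have hp : p < w := by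
    have : (p : ℝ) < w := lt_of_le_of_lt hpW hWw
    exact_mod_cast this
  have f1 : C₀ ^ (p + w + 1) ≤ (C₀ ^ 2) ^ w := by
    rw [← pow_mul]
    exact pow_le_pow_right₀ hC₀ (by omega)
  have f2 := choose_le_exp N u hu0
  -- the ratio
  obtain ⟨r, hr⟩ : ∃ r : ℝ, r = (N : ℝ) / m := ⟨_, rfl⟩
  have hr1 : 1 ≤ r := by rw [hr, one_le_div hm0]; exact hmN'
  have hr0 : 0 < r := by linarith
  have hrinv : (m : ℝ) / N = r⁻¹ := by rw [hr, inv_div]
  rw [hrinv] at hcond ⊢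
  have hC0 : 0 < C := by linarith
  have f3 : (m : ℝ) / w ≤ r ^ β / C := by
    rw [Real.inv_rpow hr0.le, ← div_eq_mul_inv] at hcond
    have hrβ : 0 < r ^ β := Real.rpow_pos_of_pos hr0 _
    rw [div_le_iff₀ hrβ] at hcond
    rw [div_le_div_iff₀ hw0 hC0]
    have h := mul_le_mul_of_nonneg_right hWw.le hrβ.le
    linarith
  have f4 : Real.exp 1 * N / u * r⁻¹ ≤ (D ^ 2)⁻¹ * r ^ β := by
    have e1 : Real.exp 1 * N / u * r⁻¹ = Real.exp 1 * (m / u) := by
      rw [hr]; field_simp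
    rw [e1]
    have e2 : (m : ℝ) / u ≤ 2 * (m / w) := by
      rw [mul_div_assoc', div_le_div_iff₀ hu0' hw0]
      have h := mul_le_mul_of_nonneg_left hu2 hm0.le
      linarith
    have e3 : 2 * Real.exp 1 * D ^ 2 ≤ C := hCl
    have hrβ : 0 < r ^ β := Real.rpow_pos_of_pos hr0 _
    calc Real.exp 1 * (m / u) ≤ Real.exp 1 * (2 * (r ^ β / C)) := by
          refine mul_le_mul_of_nonneg_left (e2.trans ?_) (Real.exp_pos 1).le
          linarith
      _ = (2 * Real.exp 1) / C * r ^ β := by ring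
      _ ≤ (D ^ 2)⁻¹ * r ^ β := by
          refine mul_le_mul_of_nonneg_right ?_ hrβ.le
          rw [div_le_iff₀ hC0, inv_mul_eq_div, le_div_iff₀ (by positivity)]
          exact e3
  have f5 : (Real.exp 1 * N / u) ^ u * (r⁻¹) ^ w ≤ (D⁻¹) ^ w * ((r⁻¹) ^ δ) ^ w := by
    have e1 : (Real.exp 1 * N / u) ^ u * (r⁻¹) ^ w = (Real.exp 1 * N / u * r⁻¹) ^ u * (r⁻¹) ^ j := by
      rw [mul_pow, mul_assoc, ← pow_add, huw]
    rw [e1]
    have e2 : (Real.exp 1 * N / u * r⁻¹) ^ u ≤ ((D ^ 2)⁻¹ * r ^ β) ^ u :=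
      pow_le_pow_left₀ (by positivity) f4 u
    have hrj : 0 < (r⁻¹) ^ j := by positivity
    refine (mul_le_mul_of_nonneg_right e2 hrj.le).trans ?_
    rw [mul_pow, mul_assoc]
    have e3 : (r ^ β) ^ u * (r⁻¹) ^ j ≤ ((r⁻¹) ^ δ) ^ w := by
      rw [← Real.rpow_natCast (r ^ β), ← Real.rpow_mul hr0.le, inv_pow,
        ← Real.rpow_natCast r j, ← Real.rpow_neg hr0.le, ← Real.rpow_add hr0,
        Real.inv_rpow hr0.le, ← Real.rpow_neg hr0.le, ← Real.rpow_natCast (r ^ (-δ)),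
        ← Real.rpow_mul hr0.le]
      refine Real.rpow_le_rpow_of_exponent_le hr1 ?_
      have e4 : (1 + β) / δ ≤ w := (hCr.trans hCW).trans hWw.le
      rw [div_le_iff₀ hδ0] at e4
      exact exp_ineq huw' h2δ e4 hjge.le hβ0
    calc ((D ^ 2)⁻¹) ^ u * ((r ^ β) ^ u * (r⁻¹) ^ j) ≤ ((D ^ 2)⁻¹) ^ u * ((r⁻¹) ^ δ) ^ w :=
          mul_le_mul_of_nonneg_left e3 (by positivity)
      _ = (D⁻¹) ^ (2 * u) * ((r⁻¹) ^ δ) ^ w := by rw [← inv_pow, ← pow_mul]
      _ ≤ (D⁻¹) ^ w * ((r⁻¹) ^ δ) ^ w := by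
          refine mul_le_mul_of_nonneg_right ?_ (by positivity)
          refine pow_le_pow_of_le_one (by positivity) (inv_le_one_of_one_le₀ hD1) ?_
          have : (w : ℝ) ≤ 2 * u := hu2
          exact_mod_cast this
  calc C₀ ^ (p + w + 1) * (N.choose u : ℝ) * (r⁻¹) ^ w
      ≤ (C₀ ^ 2) ^ w * (Real.exp 1 * N / u) ^ u * (r⁻¹) ^ w := by
        refine mul_le_mul_of_nonneg_right ?_ (by positivity)
        exact mul_le_mul f1 f2 (Nat.cast_nonneg _) (by positivity)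
    _ = (C₀ ^ 2) ^ w * ((Real.exp 1 * N / u) ^ u * (r⁻¹) ^ w) := by ring
    _ ≤ (C₀ ^ 2) ^ w * ((D⁻¹) ^ w * ((r⁻¹) ^ δ) ^ w) := mul_le_mul_of_nonneg_left f5 (by positivity)
    _ = (Real.exp (-2) * (r⁻¹) ^ δ) ^ w := by
        rw [← mul_pow, ← mul_pow, ← mul_assoc]
        congr 2
        rw [hD, Real.exp_neg]
        field_simp

/-- the sum of the tails -/
theorem tail_sum2 (m : ℕ) (W : ℝ) (hW : 0 < W) (ρ : ℝ) (hρ : 0 ≤ ρ) (hρ1 : ρ ≤ 1) :
    ∑ w ∈ (range (m + 1)).filter (fun w : ℕ => W < w), (Real.exp (-2) * ρ) ^ w ≤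
      Real.exp (-W) * ρ ^ W := by
  have h1 : ∑ w ∈ (range (m + 1)).filter (fun w : ℕ => W < w), (Real.exp (-2) * ρ) ^ w ≤
      ∑ w ∈ (range (m + 1)).filter (fun w : ℕ => W < w), Real.exp (-2) ^ w * ρ ^ W := by
    refine Finset.sum_le_sum fun w hw => ?_
    have hw' := (Finset.mem_filter.1 hw).2
    rw [mul_pow]
    refine mul_le_mul_of_nonneg_left ?_ (by positivity)
    rw [← Real.rpow_natCast]
    exact Real.rpow_le_rpow_of_exponent_ge' hρ hρ1 hW.le hw'.le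
  refine h1.trans ?_
  rw [← Finset.sum_mul]
  exact mul_le_mul_of_nonneg_right (tail_sum m W hW) (Real.rpow_nonneg hρ _)

/-- the number of bad sets -/
theorem bad_abs2 {X ι : Type*} [DecidableEq ι] (Pt : X → Prop) (sp : X → Finset ι)
    (P₀ Q : Finset ι) (m : ℕ) (hmQ : m ≤ Q.card) (W : ℝ) (hW : 0 < W)
    (hfin : {x : X | Pt x ∧ sp x ⊆ P₀ ∪ Q}.Finite) (cnt : ℕ → ℝ)
    (hcnt : ∀ (w : ℕ) (E : Finset X),
      (∀ x ∈ E, Pt x ∧ sp x \ P₀ ⊆ Q ∧ (sp x \ P₀).card = w) → (E.card : ℝ) ≤ cnt w)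
    (ρ A : ℝ) (hρ : 0 ≤ ρ) (hρ1 : ρ ≤ 1) (hA : 0 ≤ A)
    (hterm : ∀ w : ℕ, w ≤ m → W < w →
      cnt w * ((m : ℝ) / Q.card) ^ w ≤ A * (Real.exp (-2) * ρ) ^ w)
    [DecidablePred fun P : Finset ι => ∃ x : X, Pt x ∧ sp x ⊆ P₀ ∪ P ∧ W < (sp x \ P₀).card] :
    (((Q.powersetCard m).filter fun P => ∃ x : X, Pt x ∧ sp x ⊆ P₀ ∪ P ∧
      W < (sp x \ P₀).card).card : ℝ) ≤
        A * (Real.exp (-W) * ρ ^ W) * (Q.card.choose m : ℝ) := by
  classical
  set E₀ := hfin.toFinset with hE₀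
  have hmem : ∀ x, x ∈ E₀ ↔ Pt x ∧ sp x ⊆ P₀ ∪ Q := by
    intro x
    rw [hE₀, Set.Finite.mem_toFinset, Set.mem_ofPred_eq]
  have hcov : ((Q.powersetCard m).filter fun P => ∃ x : X, Pt x ∧ sp x ⊆ P₀ ∪ P ∧
      W < (sp x \ P₀).card) ⊆ ((range (m + 1)).filter fun w : ℕ => W < w).biUnion fun w =>
        (E₀.filter fun x => (sp x \ P₀).card = w).biUnion fun x =>
          (Q.powersetCard m).filter fun P => sp x \ P₀ ⊆ P := by
    intro P hP
    obtain ⟨hP1, x, hx1, hx2, hx3⟩ := Finset.mem_filter.1 hP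
    obtain ⟨hP2, hP3⟩ := Finset.mem_powersetCard.1 hP1
    have hsub : sp x \ P₀ ⊆ P := by
      intro v hv
      obtain ⟨hv1, hv2⟩ := Finset.mem_sdiff.1 hv
      rcases Finset.mem_union.1 (hx2 hv1) with h | h
      · exact absurd h hv2
      · exact h
    rw [Finset.mem_biUnion]
    refine ⟨(sp x \ P₀).card, ?_, ?_⟩
    · rw [Finset.mem_filter, Finset.mem_range]
      refine ⟨?_, hx3⟩
      have := Finset.card_le_card hsub
      omega
    · rw [Finset.mem_biUnion]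
      refine ⟨x, ?_, ?_⟩
      · rw [Finset.mem_filter, hmem]
        exact ⟨⟨hx1, hx2.trans (Finset.union_subset_union (Finset.Subset.refl _) hP2)⟩, rfl⟩
      · rw [Finset.mem_filter]
        exact ⟨hP1, hsub⟩
  have h1 := (Finset.card_le_card hcov).trans (Finset.card_biUnion_le.trans
    (Finset.sum_le_sum fun w _ => Finset.card_biUnion_le))
  have h2 : (((Q.powersetCard m).filter fun P => ∃ x : X, Pt x ∧ sp x ⊆ P₀ ∪ P ∧
      W < (sp x \ P₀).card).card : ℝ) ≤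
      ∑ w ∈ (range (m + 1)).filter (fun w : ℕ => W < w),
        ∑ x ∈ E₀.filter (fun x => (sp x \ P₀).card = w),
          (((Q.powersetCard m).filter fun P => sp x \ P₀ ⊆ P).card : ℝ) := by
    exact_mod_cast h1
  refine h2.trans ?_
  have h3 : ∀ w ∈ (range (m + 1)).filter (fun w : ℕ => W < w),
      ∑ x ∈ E₀.filter (fun x => (sp x \ P₀).card = w),
          (((Q.powersetCard m).filter fun P => sp x \ P₀ ⊆ P).card : ℝ) ≤
        A * (Real.exp (-2) * ρ) ^ w * (Q.card.choose m : ℝ) := by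
    intro w hw
    obtain ⟨hw1, hw2⟩ := Finset.mem_filter.1 hw
    rw [Finset.mem_range] at hw1
    have hwm : w ≤ m := by omega
    have hsubQ : ∀ x ∈ E₀.filter (fun x => (sp x \ P₀).card = w), sp x \ P₀ ⊆ Q := by
      intro x hx v hv
      obtain ⟨hx1, _⟩ := Finset.mem_filter.1 hx
      obtain ⟨hv1, hv2⟩ := Finset.mem_sdiff.1 hv
      rcases Finset.mem_union.1 (((hmem x).1 hx1).2 hv1) with h | h
      · exact absurd h hv2
      · exact h
    have h4 : ∀ x ∈ E₀.filter (fun x => (sp x \ P₀).card = w),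
        (((Q.powersetCard m).filter fun P => sp x \ P₀ ⊆ P).card : ℝ) ≤
          ((m : ℝ) / Q.card) ^ w * (Q.card.choose m : ℝ) := by
      intro x hx
      have hxw := (Finset.mem_filter.1 hx).2
      have h5 := card_containing Q (sp x \ P₀) m (hsubQ x hx) (by rw [hxw]; exact hwm)
      rw [hxw] at h5
      exact (Nat.cast_le.2 h5).trans (choose_ratio Q.card m w hmQ hwm)
    refine (Finset.sum_le_sum h4).trans ?_
    rw [Finset.sum_const, nsmul_eq_mul]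
    have h6 := hcnt w (E₀.filter fun x => (sp x \ P₀).card = w) (by
      intro x hx
      have hxw := (Finset.mem_filter.1 hx)
      exact ⟨((hmem x).1 hxw.1).1, hsubQ x hx, hxw.2⟩)
    have h7 := hterm w hwm hw2
    calc ((E₀.filter fun x => (sp x \ P₀).card = w).card : ℝ) *
          (((m : ℝ) / Q.card) ^ w * (Q.card.choose m : ℝ))
        ≤ cnt w * (((m : ℝ) / Q.card) ^ w * (Q.card.choose m : ℝ)) :=
          mul_le_mul_of_nonneg_right h6 (by positivity)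
      _ = (cnt w * ((m : ℝ) / Q.card) ^ w) * (Q.card.choose m : ℝ) := by ring
      _ ≤ _ := mul_le_mul_of_nonneg_right h7 (Nat.cast_nonneg _)
  refine (Finset.sum_le_sum h3).trans ?_
  rw [← Finset.sum_mul, ← Finset.mul_sum]
  exact mul_le_mul_of_nonneg_right (mul_le_mul_of_nonneg_left (tail_sum2 m W hW ρ hρ hρ1) hA)
    (Nat.cast_nonneg _)

/-- the number of points for a good set -/
theorem good_abs2 {X ι : Type*} [DecidableEq ι] (Pt : X → Prop) (sp : X → Finset ι)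
    (P₀ P : Finset ι) (W A B G : ℝ) (hW : 0 < W) (hB : 0 ≤ B) (hG : 0 ≤ G) (E : Finset X)
    (hcnt : ∀ (T : Finset ι), T ⊆ P → (T.card : ℝ) ≤ W → ∀ F : Finset X,
      (∀ x ∈ F, Pt x ∧ sp x ⊆ P₀ ∪ T) → (F.card : ℝ) ≤ A)
    (hA : A ≤ G * B ^ W)
    (hE : ∀ x ∈ E, Pt x ∧ sp x ⊆ P₀ ∪ P ∧ ((sp x \ P₀).card : ℝ) ≤ W) :
    (E.card : ℝ) ≤ G * (B * Real.exp 1 * (1 + P.card / W)) ^ W := by
  classical
  set 𝒯 := P.powerset.filter fun T => (T.card : ℝ) ≤ W with h𝒯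
  have h1 : (E.card : ℝ) ≤ ∑ T ∈ 𝒯, G * B ^ W := by
    have h2 : E.card = ∑ T ∈ 𝒯, (E.filter fun x => sp x \ P₀ = T).card := by
      refine Finset.card_eq_sum_card_fiberwise ?_
      intro x hx
      obtain ⟨_, h4, h5⟩ := hE x hx
      rw [Finset.mem_coe, h𝒯, Finset.mem_filter, Finset.mem_powerset]
      refine ⟨?_, h5⟩
      intro v hv
      obtain ⟨hv1, hv2⟩ := Finset.mem_sdiff.1 hv
      rcases Finset.mem_union.1 (h4 hv1) with h | h
      · exact absurd h hv2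
      · exact h
    have h3 : (E.card : ℝ) = ∑ T ∈ 𝒯, ((E.filter fun x => sp x \ P₀ = T).card : ℝ) := by
      exact_mod_cast h2
    rw [h3]
    refine Finset.sum_le_sum fun T hT => ?_
    obtain ⟨hTP, hTW⟩ := Finset.mem_filter.1 hT
    refine (hcnt T (Finset.mem_powerset.1 hTP) hTW (E.filter fun x => sp x \ P₀ = T) ?_).trans hA
    intro x hx
    obtain ⟨hxE, hxT⟩ := Finset.mem_filter.1 hx
    refine ⟨(hE x hxE).1, ?_⟩
    intro v hv
    rw [Finset.mem_union]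
    by_cases hv0 : v ∈ P₀
    · exact Or.inl hv0
    · right
      rw [← hxT, Finset.mem_sdiff]
      exact ⟨hv, hv0⟩
  refine h1.trans ?_
  rw [Finset.sum_const, nsmul_eq_mul]
  have h6 := card_small P W hW
  have h7 : (Real.exp 1 * (1 + P.card / W)) ^ W * B ^ W =
      (B * Real.exp 1 * (1 + P.card / W)) ^ W := by
    rw [← Real.mul_rpow (by positivity) hB]
    congr 1
    ring
  calc (𝒯.card : ℝ) * (G * B ^ W) ≤ (Real.exp 1 * (1 + P.card / W)) ^ W * (G * B ^ W) :=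
        mul_le_mul_of_nonneg_right h6 (mul_nonneg hG (Real.rpow_nonneg hB _))
    _ = G * ((Real.exp 1 * (1 + P.card / W)) ^ W * B ^ W) := by ring
    _ = _ := by rw [h7]

end Pool.Agent.TH715.RU
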