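import Mathlib
import Pool.Agent.TH715.RU.Comb
import Pool.Agent.TH876.Proj

/-!
Points of `a + b + c = 0` over a number field composed of random primes (helper715).
-/

set_option autoImplicit false

namespace Pool.Agent.TH715.RU

open Finset NumberField IsDedekindDomain Pool.Agent.H691R3 Pool.Agent.TH876.Loc

/-- the smallest terms of a sum -/
theorem exists_small' {ι : Type*} [DecidableEq ι] (g : ι → ℝ) (hg : ∀ i, 0 ≤ g i) (j : ℕ) (d : ℕ) :
    ∀ I : Finset ι, I.card = j + d →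
      ∃ J ⊆ I, J.card = j ∧ (j + d : ℝ) * ∑ i ∈ J, g i ≤ j * ∑ i ∈ I, g i := by
  induction d with
  | zero =>
    intro I hI
    refine ⟨I, Finset.Subset.refl _, by simpa using hI, ?_⟩
    simp
  | succ d ih =>
    intro I hI
    have hne : I.Nonempty := by
      rw [← Finset.card_pos]
      omega
    obtain ⟨m, hm, hmax⟩ := I.exists_max_image g hne
    have hc : (I.erase m).card = j + d := by
      rw [Finset.card_erase_of_mem hm, hI]
      omega
    obtain ⟨J, hJ, hJc, hJs⟩ := ih (I.erase m) hc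
    refine ⟨J, hJ.trans (Finset.erase_subset _ _), hJc, ?_⟩
    have h1 : g m + ∑ i ∈ I.erase m, g i = ∑ i ∈ I, g i := Finset.add_sum_erase I g hm
    have h2 : ∑ i ∈ I.erase m, g i ≤ (j + d : ℝ) * g m := by
      have h3 : ∑ i ∈ I.erase m, g i ≤ ∑ _i ∈ I.erase m, g m :=
        Finset.sum_le_sum fun i hi => hmax i (Finset.mem_of_mem_erase hi)
      rw [Finset.sum_const, hc, nsmul_eq_mul] at h3
      push_cast at h3
      exact h3
    rw [← h1]
    push_cast
    have h4 : 0 ≤ ∑ i ∈ J, g i := Finset.sum_nonneg fun i _ => hg i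
    rcases Nat.eq_zero_or_pos (j + d) with h0 | h0
    · have hj : j = 0 := by omega
      subst hj
      rw [Finset.card_eq_zero] at hJc
      subst hJc
      simp
    · have h0' : (0 : ℝ) < (j : ℝ) + d := by exact_mod_cast h0
      have h5 : ∑ i ∈ J, g i ≤ j * g m := by
        have h6 : ((j : ℝ) + d) * ∑ i ∈ J, g i ≤ ((j : ℝ) + d) * (j * g m) := by
          refine hJs.trans ?_
          have hj0 : (0 : ℝ) ≤ j := Nat.cast_nonneg _
          nlinarith
        exact le_of_mul_le_mul_left h6 h0'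
      nlinarith

section

variable {K : Type} [Field K] [NumberField K]

theorem out_eq_of {x : K} {S J : Finset (Pr K)} (h : ∀ v, (v ∈ sp x ∧ v ∉ S) ↔ v ∈ J) :
    out S x = ∑ v ∈ J, gd (Sum.inr v : Pl K) x := by
  classical
  unfold out
  refine Finset.sum_congr ?_ fun _ _ => rfl
  ext v
  rw [Finset.mem_sdiff]
  exact h v

/-- outside the other primes a point is light -/
theorem light_choice {α : ℝ} (hα : 0 ≤ α) (hα1 : α ≤ 1) {x : K} (hx : Pt x) [DecidableEq (Pr K)]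
    (P₀ : Finset (Pr K)) :
    ∃ B ⊆ sp x \ P₀, B.card = (sp x \ P₀).card - ⌊α * (sp x \ P₀).card⌋₊ ∧
      out (P₀ ∪ B) x ≤ 3 * α * hgt x := by
  classical
  obtain ⟨T, hT⟩ : ∃ T, T = sp x \ P₀ := ⟨_, rfl⟩
  rw [← hT]
  obtain ⟨j, hj⟩ : ∃ j : ℕ, j = ⌊α * T.card⌋₊ := ⟨_, rfl⟩
  have hT0 : (0 : ℝ) ≤ T.card := Nat.cast_nonneg _
  have hjle : (j : ℝ) ≤ α * T.card := by
    rw [hj]; exact Nat.floor_le (by positivity)
  have hjT : j ≤ T.card := by
    have : (j : ℝ) ≤ T.card := hjle.trans (by nlinarith)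
    exact_mod_cast this
  rw [← hj]
  obtain ⟨J, hJ, hJc, hJs⟩ := exists_small' (fun v : Pr K => gd (Sum.inr v : Pl K) x)
    (fun v => gd_nonneg _ hx) j (T.card - j) T (by omega)
  refine ⟨T \ J, Finset.sdiff_subset, ?_, ?_⟩
  · rw [Finset.card_sdiff_of_subset hJ, hJc]
  · have hTsp : T ⊆ sp x := by rw [hT]; exact Finset.sdiff_subset
    have h1 : ∀ v, (v ∈ sp x ∧ v ∉ P₀ ∪ (T \ J)) ↔ v ∈ J := by
      intro v
      have hv2 : v ∈ T ↔ v ∈ sp x ∧ v ∉ P₀ := by rw [hT, Finset.mem_sdiff]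
      rw [Finset.mem_union, Finset.mem_sdiff, not_or, not_and, not_not]
      constructor
      · rintro ⟨h1, h2, h3⟩
        exact h3 (hv2.2 ⟨h1, h2⟩)
      · intro h
        have h4 := hv2.1 (hJ h)
        exact ⟨h4.1, h4.2, fun _ => h⟩
    have h2 : out (P₀ ∪ (T \ J)) x = ∑ v ∈ J, gd (Sum.inr v : Pl K) x := by
      exact out_eq_of h1
    rw [h2]
    have h3 : ∑ v ∈ T, gd (Sum.inr v : Pl K) x ≤ 3 * hgt x := by
      have h4 : ∑ v ∈ T, gd (Sum.inr v : Pl K) x ≤ ∑ v ∈ sp x, gd (Sum.inr v : Pl K) x :=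
        Finset.sum_le_sum_of_subset_of_nonneg hTsp fun v _ _ => gd_nonneg _ hx
      refine h4.trans ?_
      rw [← sum_gd hx (Finset.Subset.refl (sp x)), sum_Spl]
      have h5 : 0 ≤ ∑ w : InfinitePlace K, gd (Sum.inl w : Pl K) x :=
        Finset.sum_nonneg fun w _ => gd_nonneg _ hx
      linarith
    have hg0 : 0 ≤ ∑ v ∈ T, gd (Sum.inr v : Pl K) x := Finset.sum_nonneg fun v _ => gd_nonneg _ hx
    have hc : (j : ℝ) + ((T.card - j : ℕ) : ℝ) = T.card := by
      rw [← Nat.cast_add]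
      congr 1
      omega
    rw [hc] at hJs
    rcases Nat.eq_zero_or_pos T.card with h0 | h0
    · have hj0 : j = 0 := by omega
      rw [hj0, Finset.card_eq_zero] at hJc
      rw [hJc, Finset.sum_empty]
      have := hgt_nonneg x
      positivity
    · have h0' : (0 : ℝ) < T.card := by exact_mod_cast h0
      have h6 : (T.card : ℝ) * ∑ v ∈ J, gd (Sum.inr v : Pl K) x ≤
          T.card * (3 * α * hgt x) := by
        refine hJs.trans ?_
        calc (j : ℝ) * ∑ v ∈ T, gd (Sum.inr v : Pl K) x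
            ≤ (α * T.card) * (3 * hgt x) := mul_le_mul hjle h3 hg0 (by positivity)
          _ = _ := by ring
      exact le_of_mul_le_mul_left h6 h0'

/-- the points with a given number of primes outside `P₀` -/
theorem count_w {n : ℕ} {α C₀ : ℝ} (hα : 0 ≤ α) (hα1 : α ≤ 1) (hC₀ : 1 ≤ C₀)
    (hC : LightBound n (3 * α) C₀) (hn : Module.finrank ℚ K = n) [DecidableEq (Pr K)]
    (P₀ Q : Finset (Pr K)) (w : ℕ) (E : Finset K)
    (hE : ∀ x ∈ E, Pt x ∧ sp x \ P₀ ⊆ Q ∧ (sp x \ P₀).card = w) :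
    (E.card : ℝ) ≤ C₀ ^ (P₀.card + w + 1) * (Q.card.choose (w - ⌊α * w⌋₊) : ℝ) := by
  classical
  have hex : ∀ x : K, ∃ B : Finset (Pr K), x ∈ E → B ⊆ Q ∧ B.card = w - ⌊α * w⌋₊ ∧
      out (P₀ ∪ B) x ≤ 3 * α * hgt x := by
    intro x
    by_cases hx : x ∈ E
    · obtain ⟨h1, h2, h3⟩ := hE x hx
      obtain ⟨B, hB1, hB2, hB3⟩ := light_choice hα hα1 h1 P₀
      exact ⟨B, fun _ => ⟨hB1.trans h2, by rw [hB2, h3], hB3⟩⟩
    · exact ⟨∅, fun h => absurd h hx⟩
  choose b hb using hex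
  have h1 : (E.card : ℝ) ≤ ∑ B ∈ Q.powersetCard (w - ⌊α * w⌋₊), C₀ ^ (P₀.card + w + 1) := by
    have h2 : E.card = ∑ B ∈ Q.powersetCard (w - ⌊α * w⌋₊), (E.filter fun x => b x = B).card := by
      refine Finset.card_eq_sum_card_fiberwise ?_
      intro x hx
      rw [Finset.mem_coe, Finset.mem_powersetCard]
      exact ⟨(hb x hx).1, (hb x hx).2.1⟩
    have h3 : (E.card : ℝ) = ∑ B ∈ Q.powersetCard (w - ⌊α * w⌋₊),
        ((E.filter fun x => b x = B).card : ℝ) := by exact_mod_cast h2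
    rw [h3]
    refine Finset.sum_le_sum fun B hB => ?_
    have h4 := hC K hn (P₀ ∪ B) (E.filter fun x => b x = B) (by
      intro x hx
      obtain ⟨hxE, hxB⟩ := Finset.mem_filter.1 hx
      refine ⟨(hE x hxE).1, ?_⟩
      rw [← hxB]
      exact (hb x hxE).2.2)
    refine h4.trans (pow_le_pow_right₀ hC₀ ?_)
    have h5 := Finset.card_union_le P₀ B
    have h6 := (Finset.mem_powersetCard.1 hB).2
    omega
  refine h1.trans (le_of_eq ?_)
  rw [Finset.sum_const, Finset.card_powersetCard, nsmul_eq_mul, mul_comm]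

theorem out_eq_zero {x : K} {S : Finset (Pr K)} (h : sp x ⊆ S) : out S x = 0 := by
  rw [out_eq_of (J := ∅) (fun v => ⟨fun hv => absurd (h hv.1) hv.2,
    fun hv => absurd hv (Finset.notMem_empty v)⟩), Finset.sum_empty]

/-- the points supported in `S` -/
theorem pts_finite {n : ℕ} {κ C₀ : ℝ} (hκ : 0 ≤ κ)
    (hC : LightBound n κ C₀) (hn : Module.finrank ℚ K = n) (S : Finset (Pr K)) :
    {x : K | Pt x ∧ sp x ⊆ S}.Finite := by
  classical
  by_contra hinf
  obtain ⟨G, hGV, hGc⟩ := Set.Infinite.exists_subset_card_eq hinf (⌊C₀ ^ (S.card + 1)⌋₊ + 1)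
  have h1 := hC K hn S G (fun x hx => by
    have h2 := hGV (Finset.mem_coe.2 hx)
    refine ⟨h2.1, ?_⟩
    rw [out_eq_zero h2.2]
    exact mul_nonneg hκ (hgt_nonneg x))
  have h2 := Nat.lt_floor_add_one (C₀ ^ (S.card + 1))
  rw [hGc] at h1
  push_cast at h1
  linarith

/-- the number of bad sets of primes -/
theorem bad_sets {n : ℕ} {α C₀ : ℝ} (hα : 0 ≤ α) (hα1 : α ≤ 1) (hC₀ : 1 ≤ C₀)
    (hC : LightBound n (3 * α) C₀) (hn : Module.finrank ℚ K = n) [DecidableEq (Pr K)]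
    (P₀ Q : Finset (Pr K)) (m : ℕ) (hmQ : m ≤ Q.card) (W : ℝ) (hW : 0 < W)
    (hterm : ∀ w : ℕ, w ≤ m → W < w →
      C₀ ^ (P₀.card + w + 1) * (Q.card.choose (w - ⌊α * w⌋₊) : ℝ) * ((m : ℝ) / Q.card) ^ w ≤
        Real.exp (-2) ^ w) [DecidablePred fun P : Finset (Pr K) =>
          ∃ x : K, Pt x ∧ sp x ⊆ P₀ ∪ P ∧ W < (sp x \ P₀).card] :
    (((Q.powersetCard m).filter fun P => ∃ x : K, Pt x ∧ sp x ⊆ P₀ ∪ P ∧
      W < (sp x \ P₀).card).card : ℝ) ≤ Real.exp (-W) * (Q.card.choose m : ℝ) := by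
  classical
  have hfin := pts_finite (K := K) (κ := 3 * α) (by positivity) hC hn (P₀ ∪ Q)
  set E₀ := hfin.toFinset with hE₀
  have hmem : ∀ x, x ∈ E₀ ↔ Pt x ∧ sp x ⊆ P₀ ∪ Q := by
    intro x
    rw [hE₀, Set.Finite.mem_toFinset, Set.mem_ofPred_eq]
  have hcov : ((Q.powersetCard m).filter fun P => ∃ x : K, Pt x ∧ sp x ⊆ P₀ ∪ P ∧
      W < (sp x \ P₀).card) ⊆ ((range (m + 1)).filter fun w : ℕ => W < w).biUnion fun w =>
        (E₀.filter fun x => (sp x \ P₀).card = w).biUnion fun x =>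
          (Q.powersetCard m).filter fun P => sp x \ P₀ ⊆ P := by
    intro P hP
    obtain ⟨hP1, x, hx1, hx2, hx3⟩ := Finset.mem_filter.1 hP
    obtain ⟨hP2, hP3⟩ := Finset.mem_powersetCard.1 hP1
    have hsub : sp x \ P₀ ⊆ P := by
      intro v hv
      obtain ⟨hv1, hv2⟩ := Finset.mem_sdiff.1 hv
      rcases Finset.mem_union.1 (hx2 hv1) with h | h
      · exact absurd h hv2
      · exact h
    rw [Finset.mem_biUnion]
    refine ⟨(sp x \ P₀).card, ?_, ?_⟩
    · rw [Finset.mem_filter, Finset.mem_range]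
      refine ⟨?_, hx3⟩
      have := Finset.card_le_card hsub
      omega
    · rw [Finset.mem_biUnion]
      refine ⟨x, ?_, ?_⟩
      · rw [Finset.mem_filter, hmem]
        exact ⟨⟨hx1, hx2.trans (Finset.union_subset_union (Finset.Subset.refl _) hP2)⟩, rfl⟩
      · rw [Finset.mem_filter]
        exact ⟨hP1, hsub⟩
  have h1 := (Finset.card_le_card hcov).trans (Finset.card_biUnion_le.trans
    (Finset.sum_le_sum fun w _ => Finset.card_biUnion_le))
  have h2 : (((Q.powersetCard m).filter fun P => ∃ x : K, Pt x ∧ sp x ⊆ P₀ ∪ P ∧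
      W < (sp x \ P₀).card).card : ℝ) ≤
      ∑ w ∈ (range (m + 1)).filter (fun w : ℕ => W < w),
        ∑ x ∈ E₀.filter (fun x => (sp x \ P₀).card = w),
          (((Q.powersetCard m).filter fun P => sp x \ P₀ ⊆ P).card : ℝ) := by
    exact_mod_cast h1
  refine h2.trans ?_
  have h3 : ∀ w ∈ (range (m + 1)).filter (fun w : ℕ => W < w),
      ∑ x ∈ E₀.filter (fun x => (sp x \ P₀).card = w),
          (((Q.powersetCard m).filter fun P => sp x \ P₀ ⊆ P).card : ℝ) ≤
        Real.exp (-2) ^ w * (Q.card.choose m : ℝ) := by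
    intro w hw
    obtain ⟨hw1, hw2⟩ := Finset.mem_filter.1 hw
    rw [Finset.mem_range] at hw1
    have hwm : w ≤ m := by omega
    have hsubQ : ∀ x ∈ E₀.filter (fun x => (sp x \ P₀).card = w), sp x \ P₀ ⊆ Q := by
      intro x hx v hv
      obtain ⟨hx1, _⟩ := Finset.mem_filter.1 hx
      obtain ⟨hv1, hv2⟩ := Finset.mem_sdiff.1 hv
      rcases Finset.mem_union.1 (((hmem x).1 hx1).2 hv1) with h | h
      · exact absurd h hv2
      · exact h
    have h4 : ∀ x ∈ E₀.filter (fun x => (sp x \ P₀).card = w),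
        (((Q.powersetCard m).filter fun P => sp x \ P₀ ⊆ P).card : ℝ) ≤
          ((m : ℝ) / Q.card) ^ w * (Q.card.choose m : ℝ) := by
      intro x hx
      have hxw := (Finset.mem_filter.1 hx).2
      have h5 := card_containing Q (sp x \ P₀) m (hsubQ x hx) (by rw [hxw]; exact hwm)
      rw [hxw] at h5
      exact (Nat.cast_le.2 h5).trans (choose_ratio Q.card m w hmQ hwm)
    refine (Finset.sum_le_sum h4).trans ?_
    rw [Finset.sum_const, nsmul_eq_mul]
    have h6 := count_w hα hα1 hC₀ hC hn P₀ Q w (E₀.filter fun x => (sp x \ P₀).card = w) (by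
      intro x hx
      have hxw := (Finset.mem_filter.1 hx)
      exact ⟨((hmem x).1 hxw.1).1, hsubQ x hx, hxw.2⟩)
    have h7 := hterm w hwm hw2
    calc ((E₀.filter fun x => (sp x \ P₀).card = w).card : ℝ) *
          (((m : ℝ) / Q.card) ^ w * (Q.card.choose m : ℝ))
        ≤ (C₀ ^ (P₀.card + w + 1) * (Q.card.choose (w - ⌊α * w⌋₊) : ℝ)) *
          (((m : ℝ) / Q.card) ^ w * (Q.card.choose m : ℝ)) :=
          mul_le_mul_of_nonneg_right h6 (by positivity)
      _ = (C₀ ^ (P₀.card + w + 1) * (Q.card.choose (w - ⌊α * w⌋₊) : ℝ) *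
          ((m : ℝ) / Q.card) ^ w) * (Q.card.choose m : ℝ) := by ring
      _ ≤ _ := mul_le_mul_of_nonneg_right h7 (Nat.cast_nonneg _)
  refine (Finset.sum_le_sum h3).trans ?_
  rw [← Finset.sum_mul]
  exact mul_le_mul_of_nonneg_right (tail_sum m W hW) (Nat.cast_nonneg _)

/-- the number of points for a good set -/
theorem good_count {n : ℕ} {κ C₀ : ℝ} (hκ : 0 ≤ κ) (hC₀ : 1 ≤ C₀)
    (hC : LightBound n κ C₀) (hn : Module.finrank ℚ K = n) [DecidableEq (Pr K)]
    (P₀ P : Finset (Pr K)) (W : ℝ) (hW : 1 ≤ W) (hPW : (P₀.card : ℝ) ≤ W) (E : Finset K)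
    (hE : ∀ x ∈ E, Pt x ∧ sp x ⊆ P₀ ∪ P ∧ ((sp x \ P₀).card : ℝ) ≤ W) :
    (E.card : ℝ) ≤ (C₀ ^ 3 * Real.exp 1 * (1 + P.card / W)) ^ W := by
  classical
  have hW0 : 0 < W := by linarith
  set 𝒯 := P.powerset.filter fun T => (T.card : ℝ) ≤ W with h𝒯
  have h1 : (E.card : ℝ) ≤ ∑ T ∈ 𝒯, (C₀ ^ 3) ^ W := by
    have h2 : E.card = ∑ T ∈ 𝒯, (E.filter fun x => sp x \ P₀ = T).card := by
      refine Finset.card_eq_sum_card_fiberwise ?_
      intro x hx
      obtain ⟨_, h4, h5⟩ := hE x hx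
      rw [Finset.mem_coe, h𝒯, Finset.mem_filter, Finset.mem_powerset]
      refine ⟨?_, h5⟩
      intro v hv
      obtain ⟨hv1, hv2⟩ := Finset.mem_sdiff.1 hv
      rcases Finset.mem_union.1 (h4 hv1) with h | h
      · exact absurd h hv2
      · exact h
    have h3 : (E.card : ℝ) = ∑ T ∈ 𝒯, ((E.filter fun x => sp x \ P₀ = T).card : ℝ) := by
      exact_mod_cast h2
    rw [h3]
    refine Finset.sum_le_sum fun T hT => ?_
    obtain ⟨_, hTW⟩ := Finset.mem_filter.1 hT
    have h4 := hC K hn (P₀ ∪ T) (E.filter fun x => sp x \ P₀ = T) (by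
      intro x hx
      obtain ⟨hxE, hxT⟩ := Finset.mem_filter.1 hx
      refine ⟨(hE x hxE).1, ?_⟩
      have hsub : sp x ⊆ P₀ ∪ T := by
        intro v hv
        rw [Finset.mem_union]
        by_cases hv0 : v ∈ P₀
        · exact Or.inl hv0
        · right
          rw [← hxT, Finset.mem_sdiff]
          exact ⟨hv, hv0⟩
      rw [out_eq_zero hsub]
      exact mul_nonneg hκ (hgt_nonneg x))
    refine h4.trans ?_
    have h5 : (((P₀ ∪ T).card + 1 : ℕ) : ℝ) ≤ 3 * W := by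
      have h6 : (((P₀ ∪ T).card : ℕ) : ℝ) ≤ P₀.card + T.card := by
        exact_mod_cast Finset.card_union_le P₀ T
      push_cast
      linarith
    rw [← Real.rpow_natCast C₀ ((P₀ ∪ T).card + 1), ← Real.rpow_natCast C₀ 3,
      ← Real.rpow_mul (by linarith)]
    refine Real.rpow_le_rpow_of_exponent_le hC₀ ?_
    push_cast at h5 ⊢
    exact h5
  refine h1.trans ?_
  rw [Finset.sum_const, nsmul_eq_mul]
  have h6 := card_small P W hW0
  have hC3 : 0 ≤ C₀ ^ 3 := by positivity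
  calc (𝒯.card : ℝ) * (C₀ ^ 3) ^ W ≤ (Real.exp 1 * (1 + P.card / W)) ^ W * (C₀ ^ 3) ^ W :=
        mul_le_mul_of_nonneg_right h6 (Real.rpow_nonneg hC3 _)
    _ = _ := by
        rw [← Real.mul_rpow (by positivity) hC3]
        congr 1
        ring

end

end Pool.Agent.TH715.RU
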