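import Mathlib
import Pool.Agent.TH715.RU.Abs
import Pool.Agent.TH867.SM.Fam

/-!
Triples `a + b = c` composed of random primes (helper715).
-/

set_option autoImplicit false

namespace Pool.Agent.TH715.RU

open Finset Pool.Agent.TH867.SR

/-- light triples of all scales for one set of primes -/
theorem light_all {k : ℕ} (hk : 1 ≤ k) : ∃ D : ℝ, 1 ≤ D ∧ ∀ S : Finset ℕ, (∀ q ∈ S, q.Prime) →
    ∀ H : ℝ, 1 ≤ H → ∀ F : Finset (Fin 3 → ℕ),
    (∀ t ∈ F, Tr t ∧ Real.log (t 2) ≤ H ∧ Light k S t) →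
    (F.card : ℝ) ≤ D * 2 ^ (18 * k * (S.card + 1)) * (1 + Real.log H) := by
  classical
  have hk0 : (0 : ℝ) < k := by exact_mod_cast hk
  have hk1 : (1 : ℝ) ≤ k := by exact_mod_cast hk
  have hρ := rho_gt hk
  have hlρ : 0 < Real.log (rho k) := Real.log_pos hρ
  obtain ⟨D0, hD0⟩ : ∃ D0 : ℝ, D0 = ((⌊Real.exp (2 * k)⌋₊ : ℝ) + 1) ^ 2 := ⟨_, rfl⟩
  have hD0' : 0 ≤ D0 := by rw [hD0]; positivity
  refine ⟨D0 + (1 + 1 / Real.log (rho k)), ?_, fun S hS H hH F hF => ?_⟩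
  · have : 0 ≤ 1 / Real.log (rho k) := by positivity
    linarith
  have hlH : 0 ≤ Real.log H := Real.log_nonneg hH
  obtain ⟨Z, hZ⟩ : ∃ Z : ℝ, Z = 2 ^ (18 * k * (S.card + 1)) := ⟨_, rfl⟩
  have hZ1 : 1 ≤ Z := by rw [hZ]; exact one_le_pow₀ (by norm_num)
  rw [← hZ]
  set F1 := F.filter fun t => Real.log (t 2) ≤ 2 * k with hF1
  set F2 := F.filter fun t => ¬ Real.log (t 2) ≤ 2 * k with hF2
  have hcardN : F.card = F1.card + F2.card :=
    (Finset.card_filter_add_card_filter_not (s := F) (fun t => Real.log (t 2) ≤ 2 * k)).symm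
  have hcard : (F.card : ℝ) = F1.card + F2.card := by
    rw [hcardN, Nat.cast_add]
  have c1 : (F1.card : ℝ) ≤ D0 := by
    have h1 := small_height (2 * k) F1 (fun t ht => by
      obtain ⟨b1, b2⟩ := Finset.mem_filter.1 ht
      exact ⟨(hF t b1).1, b2⟩)
    rw [hD0]
    exact_mod_cast h1
  have c2 : (F2.card : ℝ) ≤ Z * ((1 + 1 / Real.log (rho k)) * (1 + Real.log H)) := by
    rcases le_or_gt (2 * (k : ℝ)) H with hcase | hcase
    · obtain ⟨J, hJ, G, hG, hGc⟩ := scales hk (l0 := 2 * k) (H := H) (by positivity) hcase F2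
        (fun t ht => by
          obtain ⟨b1, b2⟩ := Finset.mem_filter.1 ht
          exact ⟨(not_le.1 b2).le, (hF t b1).2.1⟩)
      have hGj : ∀ j ∈ Finset.range (J + 1), ((G j).card : ℝ) ≤ Z := by
        intro j _
        have h1 := card_light hk hS (l := 2 * k * rho k ^ j) (by
          have : 1 ≤ rho k ^ j := one_le_pow₀ hρ.le
          nlinarith) (G j) (fun t ht => by
            obtain ⟨d1, d2⟩ := hG j t ht
            obtain ⟨b1, b2⟩ := Finset.mem_filter.1 d1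
            exact ⟨(hF t b1).1, d2, (hF t b1).2.2⟩)
        rw [hZ]
        exact_mod_cast h1
      have h3 : (F2.card : ℝ) ≤ ∑ j ∈ Finset.range (J + 1), ((G j).card : ℝ) := by
        exact_mod_cast hGc
      refine (h3.trans (Finset.sum_le_sum hGj)).trans ?_
      rw [Finset.sum_const, Finset.card_range, nsmul_eq_mul, mul_comm]
      refine mul_le_mul_of_nonneg_left ?_ (by positivity)
      have h4 : (J : ℝ) * Real.log (rho k) ≤ Real.log H := by
        rw [← Real.log_pow]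
        refine Real.log_le_log (by positivity) ?_
        refine le_trans ?_ hJ
        have : 0 < rho k ^ J := by positivity
        nlinarith
      have h5 : (J : ℝ) ≤ 1 / Real.log (rho k) * Real.log H := by
        rw [one_div, ← div_eq_inv_mul, le_div_iff₀ hlρ]
        exact h4
      push_cast
      have h6 : 0 < 1 / Real.log (rho k) := by positivity
      nlinarith
    · have : F2 = ∅ := by
        rw [Finset.eq_empty_iff_forall_notMem]
        intro t ht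
        obtain ⟨b1, b2⟩ := Finset.mem_filter.1 ht
        have := (hF t b1).2.1
        linarith [not_le.1 b2]
      rw [this, Finset.card_empty, Nat.cast_zero]
      positivity
  rw [hcard]
  have c3 : D0 ≤ D0 * (Z * (1 + Real.log H)) := by
    have : 1 ≤ Z * (1 + Real.log H) := one_le_mul_of_one_le_of_one_le hZ1 (by linarith)
    calc D0 = D0 * 1 := (mul_one _).symm
      _ ≤ _ := mul_le_mul_of_nonneg_left this hD0'
  calc (F1.card : ℝ) + F2.card ≤ D0 * (Z * (1 + Real.log H)) +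
      Z * ((1 + 1 / Real.log (rho k)) * (1 + Real.log H)) := by linarith
    _ = (D0 + (1 + 1 / Real.log (rho k))) * Z * (1 + Real.log H) := by ring

/-- the product is composed of its primes -/
theorem log_N3_sum {t : Fin 3 → ℕ} (_h : Tr t) :
    Real.log (N3 t) = ∑ q ∈ (N3 t).primeFactors, (vv t q : ℝ) * Real.log q := by
  rw [Real.log_nat_eq_sum_factorization, Finsupp.sum, Nat.support_factorization]
  rfl

theorem vl_nonneg (t : Fin 3 → ℕ) (q : ℕ) : 0 ≤ (vv t q : ℝ) * Real.log q :=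
  mul_nonneg (Nat.cast_nonneg _) (Real.log_natCast_nonneg q)

/-- the primes carrying most of the height -/
theorem light_choiceQ {k : ℕ} {α : ℝ} (hα : 0 ≤ α) (hα1 : 3 * α ≤ 1 - 1 / (k : ℝ))
    {t : Fin 3 → ℕ} (h : Tr t) (P₀ : Finset ℕ) :
    ∃ B ⊆ (N3 t).primeFactors \ P₀, B.card = ((N3 t).primeFactors \ P₀).card -
      ⌊α * ((N3 t).primeFactors \ P₀).card⌋₊ ∧ Light k (P₀ ∪ B) t := by
  classical
  obtain ⟨T, hT⟩ : ∃ T, T = (N3 t).primeFactors \ P₀ := ⟨_, rfl⟩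
  rw [← hT]
  obtain ⟨j, hj⟩ : ∃ j : ℕ, j = ⌊α * T.card⌋₊ := ⟨_, rfl⟩
  have hk1 : 0 ≤ 1 / (k : ℝ) := by positivity
  have hT0 : (0 : ℝ) ≤ T.card := Nat.cast_nonneg _
  have hjle : (j : ℝ) ≤ α * T.card := by
    rw [hj]; exact Nat.floor_le (by positivity)
  have hjT : j ≤ T.card := by
    have : (j : ℝ) ≤ T.card := hjle.trans (by nlinarith)
    exact_mod_cast this
  rw [← hj]
  obtain ⟨J, hJ, hJc, hJs⟩ := exists_smallest (fun q : ℕ => (vv t q : ℝ) * Real.log q)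
    (fun q => vl_nonneg t q) j (T.card - j) T (by omega)
  refine ⟨T \ J, Finset.sdiff_subset, ?_, ?_⟩
  · rw [Finset.card_sdiff_of_subset hJ, hJc]
  · rw [Light]
    have hsub : (N3 t).primeFactors ⊆ (P₀ ∪ (T \ J)) ∪ J := by
      intro q hq
      rw [Finset.mem_union, Finset.mem_union, Finset.mem_sdiff]
      by_cases h0 : q ∈ P₀
      · exact Or.inl (Or.inl h0)
      · have hqT : q ∈ T := by rw [hT, Finset.mem_sdiff]; exact ⟨hq, h0⟩
        by_cases hqJ : q ∈ J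
        · exact Or.inr hqJ
        · exact Or.inl (Or.inr ⟨hqT, hqJ⟩)
    have h1 : Real.log (N3 t) ≤ ∑ q ∈ P₀ ∪ (T \ J), (vv t q : ℝ) * Real.log q +
        ∑ q ∈ J, (vv t q : ℝ) * Real.log q := by
      rw [log_N3_sum h]
      refine (Finset.sum_le_sum_of_subset_of_nonneg hsub fun q _ _ => vl_nonneg t q).trans ?_
      rw [← Finset.sum_union_inter]
      have : 0 ≤ ∑ q ∈ (P₀ ∪ (T \ J)) ∩ J, (vv t q : ℝ) * Real.log q :=
        Finset.sum_nonneg fun q _ => vl_nonneg t q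
      linarith
    have h2 : ∑ q ∈ T, (vv t q : ℝ) * Real.log q ≤ 3 * Real.log (t 2) :=
      (sum_fac_le T (N3 t)).trans (log_N3_le h)
    have hl2 : 0 ≤ Real.log (t 2) := Real.log_natCast_nonneg _
    have hg0 : 0 ≤ ∑ q ∈ T, (vv t q : ℝ) * Real.log q :=
      Finset.sum_nonneg fun q _ => vl_nonneg t q
    have h3 : ∑ q ∈ J, (vv t q : ℝ) * Real.log q ≤ 3 * α * Real.log (t 2) := by
      have hc : (j : ℝ) + ((T.card - j : ℕ) : ℝ) = T.card := by
        rw [← Nat.cast_add]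
        congr 1
        omega
      rw [hc] at hJs
      rcases Nat.eq_zero_or_pos T.card with h0 | h0
      · have hj0 : j = 0 := by omega
        rw [hj0, Finset.card_eq_zero] at hJc
        rw [hJc, Finset.sum_empty]
        positivity
      · have h0' : (0 : ℝ) < T.card := by exact_mod_cast h0
        have h6 : (T.card : ℝ) * ∑ q ∈ J, (vv t q : ℝ) * Real.log q ≤
            T.card * (3 * α * Real.log (t 2)) := by
          refine hJs.trans ?_
          calc (j : ℝ) * ∑ q ∈ T, (vv t q : ℝ) * Real.log q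
              ≤ (α * T.card) * (3 * Real.log (t 2)) := mul_le_mul hjle h2 hg0 (by positivity)
            _ = _ := by ring
        exact le_of_mul_le_mul_left h6 h0'
    have h4 : 3 * α * Real.log (t 2) ≤ (1 - 1 / (k : ℝ)) * Real.log (t 2) :=
      mul_le_mul_of_nonneg_right hα1 hl2
    linarith

theorem light_full {k : ℕ} (hk : 1 ≤ k) {t : Fin 3 → ℕ} (h : Tr t) {S : Finset ℕ}
    (hS : (N3 t).primeFactors ⊆ S) : Light k S t := by
  rw [Light, log_N3_sum h]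
  have h1 := Finset.sum_le_sum_of_subset_of_nonneg hS fun q _ _ => vl_nonneg t q
  have hk0 : (0 : ℝ) < k := by exact_mod_cast hk
  have hk1 : 1 / (k : ℝ) ≤ 1 := by
    rw [div_le_one hk0]; exact_mod_cast hk
  have hl2 : 0 ≤ Real.log (t 2) := Real.log_natCast_nonneg _
  have h2 : 0 ≤ (1 - 1 / (k : ℝ)) * Real.log (t 2) := mul_nonneg (by linarith) hl2
  linarith

/-- the height in terms of the number and the size of the primes -/
theorem height_num {t : Fin 3 → ℕ} (h : Tr t) {n : ℕ} {Λ : ℝ} (hΛ : 1 ≤ Λ)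
    (hn : (N3 t).primeFactors.card ≤ n) (hq : ∀ q ∈ (N3 t).primeFactors, Real.log (q : ℝ) ≤ Λ) :
    Real.log (t 2) ≤ Real.exp (3000 * (1 + n * Λ) ^ 6) := by
  have h1 : ∑ q ∈ (N3 t).primeFactors, Real.log (q : ℝ) ≤ n * Λ := by
    refine (Finset.sum_le_sum hq).trans ?_
    rw [Finset.sum_const, nsmul_eq_mul]
    refine mul_le_mul_of_nonneg_right ?_ (by linarith)
    exact_mod_cast hn
  have h2 := Pool.Agent.TH867.SM.height_le h (X := Real.exp (n * Λ))
    (Real.one_le_exp (by positivity)) (by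
      rw [← rr_sum h, Real.log_exp]
      exact h1)
  rwa [Real.log_exp] at h2

theorem num_scales (n : ℕ) {Λ : ℝ} (hΛ : 1 ≤ Λ) :
    1 + 3000 * (1 + n * Λ) ^ 6 ≤ 3001 * 64 ^ (n + 1) * Λ ^ 6 := by
  have h1 : (n : ℝ) + 1 ≤ 2 ^ n := by
    have : n + 1 ≤ 2 ^ n := Nat.lt_two_pow_self
    exact_mod_cast this
  have h2 : 1 + n * Λ ≤ 2 ^ n * Λ := by nlinarith
  have h3 : (1 + n * Λ) ^ 6 ≤ 64 ^ n * Λ ^ 6 := by
    calc (1 + n * Λ) ^ 6 ≤ (2 ^ n * Λ) ^ 6 := pow_le_pow_left₀ (by positivity) h2 6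
      _ = 64 ^ n * Λ ^ 6 := by
          rw [mul_pow, ← pow_mul, mul_comm n 6, pow_mul]
          norm_num
  have h4 : 1 ≤ 64 ^ n * Λ ^ 6 :=
    one_le_mul_of_one_le_of_one_le (one_le_pow₀ (by norm_num)) (one_le_pow₀ hΛ)
  have h5 : (64 : ℝ) ^ n * Λ ^ 6 ≤ 64 ^ (n + 1) * Λ ^ 6 := by
    refine mul_le_mul_of_nonneg_right ?_ (by positivity)
    exact pow_le_pow_right₀ (by norm_num) (by omega)
  nlinarith

/-- the number of light triples whose primes are not too large -/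
theorem light_num {k : ℕ} (hk : 1 ≤ k) : ∃ C₀ : ℝ, 1 ≤ C₀ ∧ ∀ S : Finset ℕ, (∀ q ∈ S, q.Prime) →
    ∀ (n : ℕ) (Λ : ℝ), 1 ≤ Λ → S.card ≤ n → ∀ F : Finset (Fin 3 → ℕ),
    (∀ t ∈ F, Tr t ∧ Light k S t ∧ (N3 t).primeFactors.card ≤ n ∧
      ∀ q ∈ (N3 t).primeFactors, Real.log (q : ℝ) ≤ Λ) →
    (F.card : ℝ) ≤ Λ ^ 6 * C₀ ^ (n + 1) := by
  obtain ⟨D, hD, hL⟩ := light_all hk
  have hK : (1 : ℝ) ≤ 2 ^ (18 * k) := one_le_pow₀ (by norm_num)
  refine ⟨D * 3001 * 64 * 2 ^ (18 * k), ?_, fun S hS n Λ hΛ hSn F hF => ?_⟩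
  · have h1 : 1 ≤ D * 3001 * 64 := by nlinarith
    exact one_le_mul_of_one_le_of_one_le h1 hK
  have h1 := hL S hS (Real.exp (3000 * (1 + n * Λ) ^ 6)) (Real.one_le_exp (by positivity)) F
    (fun t ht => by
      obtain ⟨a1, a2, a3, a4⟩ := hF t ht
      exact ⟨a1, height_num a1 hΛ a3 a4, a2⟩)
  rw [Real.log_exp] at h1
  have h2 := num_scales n hΛ
  have h3 : (2 : ℝ) ^ (18 * k * (S.card + 1)) ≤ (2 ^ (18 * k)) ^ (n + 1) := by
    rw [← pow_mul]
    exact pow_le_pow_right₀ (by norm_num) (Nat.mul_le_mul_left _ (by omega))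
  have h4 : D * 3001 ≤ (D * 3001) ^ (n + 1) := by
    have h5 : 1 ≤ D * 3001 := by nlinarith
    exact le_self_pow₀ h5 (by omega)
  have hD0 : 0 < D := by linarith
  calc (F.card : ℝ) ≤ D * 2 ^ (18 * k * (S.card + 1)) * (1 + 3000 * (1 + n * Λ) ^ 6) := h1
    _ ≤ D * (2 ^ (18 * k)) ^ (n + 1) * (3001 * 64 ^ (n + 1) * Λ ^ 6) := by
        refine mul_le_mul (mul_le_mul_of_nonneg_left h3 hD0.le) h2 (by positivity) (by positivity)
    _ = Λ ^ 6 * ((D * 3001) * (64 ^ (n + 1) * (2 ^ (18 * k)) ^ (n + 1))) := by ring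
    _ ≤ Λ ^ 6 * ((D * 3001) ^ (n + 1) * (64 ^ (n + 1) * (2 ^ (18 * k)) ^ (n + 1))) := by
        refine mul_le_mul_of_nonneg_left ?_ (by positivity)
        exact mul_le_mul_of_nonneg_right h4 (by positivity)
    _ = Λ ^ 6 * (D * 3001 * 64 * 2 ^ (18 * k)) ^ (n + 1) := by
        rw [← mul_pow, ← mul_pow]
        congr 2
        ring

/-- the triples with a given number of primes outside `P₀` -/
theorem count_wQ {k : ℕ} {α C₀ : ℝ} (hα : 0 ≤ α) (hα1 : 3 * α ≤ 1 - 1 / (k : ℝ))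
    (hC : ∀ S : Finset ℕ, (∀ q ∈ S, q.Prime) →
      ∀ (n : ℕ) (Λ : ℝ), 1 ≤ Λ → S.card ≤ n → ∀ F : Finset (Fin 3 → ℕ),
      (∀ t ∈ F, Tr t ∧ Light k S t ∧ (N3 t).primeFactors.card ≤ n ∧
        ∀ q ∈ (N3 t).primeFactors, Real.log (q : ℝ) ≤ Λ) →
      (F.card : ℝ) ≤ Λ ^ 6 * C₀ ^ (n + 1))
    (P₀ Q : Finset ℕ) (Λ : ℝ) (hΛ : 1 ≤ Λ) (hP₀ : ∀ q ∈ P₀, q.Prime ∧ Real.log (q : ℝ) ≤ Λ)
    (hQ : ∀ q ∈ Q, q.Prime ∧ Real.log (q : ℝ) ≤ Λ) (w : ℕ) (E : Finset (Fin 3 → ℕ))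
    (hE : ∀ t ∈ E, Tr t ∧ (N3 t).primeFactors \ P₀ ⊆ Q ∧ ((N3 t).primeFactors \ P₀).card = w) :
    (E.card : ℝ) ≤ Λ ^ 6 * C₀ ^ (P₀.card + w + 1) * (Q.card.choose (w - ⌊α * w⌋₊) : ℝ) := by
  classical
  have hex : ∀ t : Fin 3 → ℕ, ∃ B : Finset ℕ, t ∈ E → B ⊆ Q ∧ B.card = w - ⌊α * w⌋₊ ∧
      Light k (P₀ ∪ B) t := by
    intro t
    by_cases ht : t ∈ E
    · obtain ⟨h1, h2, h3⟩ := hE t ht
      obtain ⟨B, hB1, hB2, hB3⟩ := light_choiceQ hα hα1 h1 P₀
      exact ⟨B, fun _ => ⟨hB1.trans h2, by rw [hB2, h3], hB3⟩⟩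
    · exact ⟨∅, fun h => absurd h ht⟩
  choose b hb using hex
  have h1 : (E.card : ℝ) ≤
      ∑ B ∈ Q.powersetCard (w - ⌊α * w⌋₊), Λ ^ 6 * C₀ ^ (P₀.card + w + 1) := by
    have h2 : E.card = ∑ B ∈ Q.powersetCard (w - ⌊α * w⌋₊), (E.filter fun x => b x = B).card := by
      refine Finset.card_eq_sum_card_fiberwise ?_
      intro x hx
      rw [Finset.mem_coe, Finset.mem_powersetCard]
      exact ⟨(hb x hx).1, (hb x hx).2.1⟩
    have h3 : (E.card : ℝ) = ∑ B ∈ Q.powersetCard (w - ⌊α * w⌋₊),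
        ((E.filter fun x => b x = B).card : ℝ) := by exact_mod_cast h2
    rw [h3]
    refine Finset.sum_le_sum fun B hB => ?_
    obtain ⟨hBQ, hBc⟩ := Finset.mem_powersetCard.1 hB
    have hunion : ∀ q ∈ P₀ ∪ B, q.Prime := by
      intro q hq
      rcases Finset.mem_union.1 hq with h | h
      · exact (hP₀ q h).1
      · exact (hQ q (hBQ h)).1
    refine hC (P₀ ∪ B) hunion (P₀.card + w) Λ hΛ ?_ (E.filter fun x => b x = B) ?_
    · have h5 := Finset.card_union_le P₀ B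
      omega
    · intro x hx
      obtain ⟨hxE, hxB⟩ := Finset.mem_filter.1 hx
      obtain ⟨e1, e2, e3⟩ := hE x hxE
      refine ⟨e1, by rw [← hxB]; exact (hb x hxE).2.2, ?_, ?_⟩
      · have h6 : (N3 x).primeFactors ⊆ P₀ ∪ ((N3 x).primeFactors \ P₀) := by
          intro q hq
          rw [Finset.mem_union, Finset.mem_sdiff]
          by_cases h0 : q ∈ P₀
          · exact Or.inl h0
          · exact Or.inr ⟨hq, h0⟩
        have h7 := (Finset.card_le_card h6).trans (Finset.card_union_le _ _)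
        omega
      · intro q hq
        by_cases h0 : q ∈ P₀
        · exact (hP₀ q h0).2
        · exact (hQ q (e2 (Finset.mem_sdiff.2 ⟨hq, h0⟩))).2
  refine h1.trans (le_of_eq ?_)
  rw [Finset.sum_const, Finset.card_powersetCard, nsmul_eq_mul, mul_comm]

/-- the triples composed of given primes -/
theorem trs_finite (S : Finset ℕ) (Λ : ℝ) (hΛ : 1 ≤ Λ)
    (hS : ∀ q ∈ S, Real.log (q : ℝ) ≤ Λ) :
    {t : Fin 3 → ℕ | Tr t ∧ (N3 t).primeFactors ⊆ S}.Finite := by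
  obtain ⟨H, hH⟩ : ∃ H, H = Real.exp (3000 * (1 + S.card * Λ) ^ 6) := ⟨_, rfl⟩
  refine Set.Finite.subset (Finset.finite_toSet (Fintype.piFinset fun _ : Fin 3 =>
    Finset.range (⌊Real.exp H⌋₊ + 1))) ?_
  rintro t ⟨h1, h2⟩
  have h3 := height_num h1 hΛ (Finset.card_le_card h2) (fun q hq => hS q (h2 hq))
  rw [← hH] at h3
  rw [Finset.mem_coe, Fintype.mem_piFinset]
  intro i
  rw [Finset.mem_range, Nat.lt_succ_iff]
  refine (h1.le2 i).trans (Nat.le_floor ?_)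
  rw [← Real.log_le_iff_le_exp (by exact_mod_cast h1.pos' 2)]
  exact h3

end Pool.Agent.TH715.RU
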